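import Pool.Agent.L0h29.AL.Defs
import Pool.Agent.K7.H20.AW.Dec

/-!
# Project AL: statements about Artin groups (use the start library `Pool.Agent.K7.H20.AW`)

`Art M`, `g M b`, `P M V`, `val M w` are the Artin group, its generators, the standard parabolic
subgroups, the value of a word in syllables (files `Tr`, `Few`).
-/

set_option autoImplicit false

namespace Pool.Agent.L0h29.AL

open Pool.Agent.K7.H20.AW

/-- the label of `s, t` is replaced by infinity -/
def er {B : Type*} [DecidableEq B] (M : CoxeterMatrix B) (s t : B) : CoxeterMatrix B where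
  M := Matrix.of fun i j =>
    if i = j then 1 else if (i = s ∧ j = t) ∨ (i = t ∧ j = s) then 0 else M i j
  isSymm := by
    ext i j
    simp only [Matrix.transpose_apply, Matrix.of_apply]
    by_cases h : i = j
    · subst h; rfl
    · rw [if_neg h, if_neg (Ne.symm h), M.symmetric j i]
      congr 1
      ext
      tauto
  diagonal i := by simp
  off_diagonal i j h := by
    simp only [Matrix.of_apply, if_neg h]
    split_ifs
    · norm_num
    · exact M.off_diagonal i j h

/-- the two generators -/
def xx {B : Type*} (M : CoxeterMatrix B) (s t : B) (τ : Bool) : Art M :=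
  if τ then g M s else g M t

/-- the two parabolic subgroups -/
def AA {B : Type*} (M : CoxeterMatrix B) (s t : B) (τ : Bool) : Subgroup (Art M) :=
  if τ then P M {t}ᶜ else P M {s}ᶜ

/-- RED: if the label of `s, t` is infinite, the Artin group is an amalgam. -/
def S_RED.{u} : Prop := ∀ (B : Type u) [Fintype B] [DecidableEq B] (M : CoxeterMatrix B) (s t : B),
  s ≠ t → M s t = 0 → ∀ l : List (Bool × Art M), l ≠ [] →
  (∀ x ∈ l, x.2 ∈ AA M s t x.1 ∧ x.2 ∉ P M {s, t}ᶜ) → l.IsChain (fun x y => x.1 ≠ y.1) →
  (l.map Prod.snd).prod ∉ P M {s, t}ᶜ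

/-- KER: the kernel of the map which restores one label. -/
def S_KER.{u} : Prop := ∀ (B : Type u) [Fintype B] [DecidableEq B] (M : CoxeterMatrix B) (s t : B),
  s ≠ t → ∀ w : List (B × ℤ), val M w = 1 → val (er M s t) w ∈ Subgroup.normalClosure
    ((Subgroup.map (FreeGroup.lift (xx (er M s t) s t))
      (Subgroup.normalClosure {rm (M s t)}) : Subgroup (Art (er M s t))) : Set (Art (er M s t)))

/-- CNT: an element with few syllables of `t` moves the base edge by few steps. -/
def S_CNT.{u} : Prop := ∀ (B : Type u) [Fintype B] [DecidableEq B] (M : CoxeterMatrix B) (s t : B),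
  s ≠ t → ∀ (S : Amal (Art M)) (T : ETree (Art M ⧸ S.C)), S.A = AA M s t → T.r = S.rel →
  ∀ (w : List (B × ℤ)) (l : List (Art M ⧸ S.C)),
  Pth T.r ((1 : Art M) : Art M ⧸ S.C) (val M w : Art M ⧸ S.C) l →
  l.length ≤ 2 * (w.map Prod.fst).count t + 2 ∧ l.length ≤ 2 * (w.map Prod.fst).count s + 2

/-- ONE: one label can be erased. -/
def S_ONE.{u} : Prop := ∀ (B : Type u) [Fintype B] [DecidableEq B] (M : CoxeterMatrix B) (s t : B),
  s ≠ t → ∀ w : List (B × ℤ),
  2 * min (syllables s w) (syllables t w) + 82 ≤ M s t → (val M w = 1 ↔ val (er M s t) w = 1)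

/-- the matrix in which all labels which `w` cannot see are replaced by infinity -/
def far {B : Type*} [DecidableEq B] (M : CoxeterMatrix B) (w : List (B × ℤ)) : CoxeterMatrix B where
  M := Matrix.of fun i j =>
    if i = j then 1 else if 2 * min (syllables i w) (syllables j w) + 82 ≤ M i j then 0 else M i j
  isSymm := by
    ext i j
    simp only [Matrix.transpose_apply, Matrix.of_apply]
    by_cases h : i = j
    · subst h; rfl
    · rw [if_neg h, if_neg (Ne.symm h), M.symmetric j i, min_comm]
  diagonal i := by simp
  off_diagonal i j h := by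
    simp only [Matrix.of_apply, if_neg h]
    split_ifs
    · norm_num
    · exact M.off_diagonal i j h

/-- MAI: words do not see large labels. -/
def S_MAI.{u} : Prop := ∀ (B : Type u) [Fintype B] [DecidableEq B] (M : CoxeterMatrix B)
  (w : List (B × ℤ)), value M w = 1 ↔ value (far M w) w = 1

end Pool.Agent.L0h29.AL
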