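import Pool.Agent.L0h29.AL.Defs2
import Pool.Agent.L0h29.AL.ArtDefs

/-!
# Project AL, part 2: statements about Artin groups and computability
-/

set_option autoImplicit false

namespace Pool.Agent.L0h29.AL

open Pool.Agent.K7.H20.AW

/-! ## 1. retractions -/

/-- RTR: the set retractions onto standard parabolic subgroups. -/
def S_RTR.{u} : Prop := ∀ (B : Type u) [Fintype B] [DecidableEq B] (M : CoxeterMatrix B) (Y : Set B),
  ∃ r : Art M → Art M, (∀ x, r x ∈ P M Y) ∧ (∀ y ∈ P M Y, ∀ x, r (y * x) = y * r x) ∧ r 1 = 1 ∧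
    (∀ x n, Wl (Set.range (g M)) x n → Wl (g M '' Y) (r x) n) ∧
    (∀ V : Set B, ∀ x ∈ P M V, r x ∈ P M (Y ∩ V)) ∧
    (∀ b, b ∉ Y → ∀ x ∈ P M Y, ∀ k : ℤ, Odd k → r (g M b ^ k * x) ∈ P M {y | y ∈ Y ∧ M y b = 2})

/-- the subgroup of the relations of the dihedral group -/
def KK {B : Type*} (M : CoxeterMatrix B) (s t : B) (m : ℕ) : Subgroup (Art M) :=
  Subgroup.map (FreeGroup.lift (xx M s t)) (Subgroup.normalClosure {rm m})

/-- DAT: the data for an infinite label (part 1). -/
def S_DAT.{u} : Prop := ∀ (B : Type u) [Fintype B] [DecidableEq B] (M : CoxeterMatrix B) (s t : B),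
  s ≠ t → M s t = 0 → ∀ m : ℕ, 82 ≤ m → ∃ S : Dat (Art M), S.A = AA M s t ∧ S.C = P M {s, t}ᶜ ∧
    S.x = xx M s t ∧ S.K = KK M s t m ∧ S.m = m

/-- RET: the data with lengths for an infinite label (part 2). -/
def S_RET.{u} : Prop := ∀ (B : Type u) [Fintype B] [DecidableEq B] (M : CoxeterMatrix B) (s t : B),
  s ≠ t → M s t = 0 → ∀ m : ℕ, 100 ≤ m → ∃ S : Ret (Art M), S.A = AA M s t ∧ S.C = P M {s, t}ᶜ ∧
    S.x = xx M s t ∧ S.K = KK M s t m ∧ S.m = m ∧ S.X = Set.range (g M)

/-! ## 2. words in letters -/

/-- the value of a word in letters -/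
def lval {B : Type*} (M : CoxeterMatrix B) (w : List (B × Bool)) : Art M :=
  (w.map fun p => if p.2 then g M p.1 else (g M p.1)⁻¹).prod

/-- the relator in the group in which the label is erased -/
def rl {B : Type*} [DecidableEq B] (M : CoxeterMatrix B) (s t : B) : Art (er M s t) :=
  altProd (M s t) (g (er M s t) s) (g (er M s t) t) *
    (altProd (M s t) (g (er M s t) t) (g (er M s t) s))⁻¹

/-- the bound for one label -/
def ph (N : ℕ) : ℕ := (N + 1) * bd N (bi N N) + bi N N

/-- CMB: relations become products of few short conjugates of one relator when a large label is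
erased. -/
def S_CMB.{u} : Prop := ∀ (B : Type u) [Fintype B] [DecidableEq B] (M : CoxeterMatrix B) (s t : B),
  s ≠ t → 100 ≤ M s t → ∀ (w : List (B × Bool)) (N : ℕ), w.length ≤ N → M s t ≤ N →
  lval M w = 1 → ∃ c : List (List (B × Bool) × Bool), c.length ≤ ph N ∧
    (∀ p ∈ c, p.1.length ≤ ph N) ∧
    lval (er M s t) w = cj (rl M s t) (c.map fun p => (lval (er M s t) p.1, p.2))

/-- the inverse word -/
def inw {β : Type*} (w : List (β × Bool)) : List (β × Bool) := (w.map fun p => (p.1, !p.2)).reverse

/-- the alternating word -/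
def aw {β : Type*} : ℕ → β → β → List (β × Bool)
  | 0, _, _ => []
  | (m + 1), i, j => (i, true) :: aw m j i

/-- the relator of the pair `i, j` with label `m`, or its inverse -/
def rw' {β : Type*} (m : ℕ) (i j : β) (b : Bool) : List (β × Bool) :=
  if b then aw m i j ++ inw (aw m j i) else aw m j i ++ inw (aw m i j)

/-- the product of conjugates of relators -/
def exw {β : Type*} (lab : β → β → ℕ) (c : List (List (β × Bool) × β × β × Bool)) :
    List (β × Bool) :=
  c.flatMap fun p => p.1 ++ rw' (lab p.2.1 p.2.2.1) p.2.1 p.2.2.1 p.2.2.2 ++ inw p.1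

/-- all finite labels `≥ 100` are replaced by infinity -/
def tr {B : Type*} [DecidableEq B] (M : CoxeterMatrix B) : CoxeterMatrix B where
  M := Matrix.of fun i j => if i = j then 1 else if 100 ≤ M i j then 0 else M i j
  isSymm := by
    ext i j
    simp only [Matrix.transpose_apply, Matrix.of_apply]
    by_cases h : i = j
    · subst h; rfl
    · rw [if_neg h, if_neg (Ne.symm h), M.symmetric j i]
  diagonal i := by simp
  off_diagonal i j h := by
    simp only [Matrix.of_apply, if_neg h]
    split_ifs
    · norm_num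
    · exact M.off_diagonal i j h

/-- the bound for all labels -/
def ps (N : ℕ) : ℕ := (fun x => x + ph x * (2 * ph x + 2 * x))^[N * N] N

/-- BIG: the relations of `A_M` are consequences of boundedly many conjugates of the relators with
large labels, in the group of the truncated matrix. -/
def S_BIG : Prop := ∀ (n : ℕ) (M : CoxeterMatrix (Fin n)) (w : List (Fin n × Bool)) (N : ℕ),
  n ≤ N → w.length ≤ N → (∀ i j, M i j ≤ N) →
  (lval M w = 1 ↔ ∃ c : List (List (Fin n × Bool) × Fin n × Fin n × Bool), c.length ≤ ps N ∧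
    (∀ p ∈ c, p.1.length ≤ ps N) ∧ lval (tr M) (w ++ exw (fun i j => M i j) c) = 1)

/-! ## 3. computability -/

/-- CEX: bounded search. -/
def S_CEX : Prop := ∀ (α β : Type) [Primcodable α] [Primcodable β] (e : α → List β)
  (Q : α → β → Bool), Computable e → Computable₂ Q → Computable fun a => (e a).any (Q a)

/-- CLS: enumeration of lists. -/
def S_CLS : Prop := ∀ (β : Type) [Primcodable β] (e : ℕ → List β), Primrec e →
  ∃ E : ℕ → List (List β), Primrec E ∧ ∀ N l, l ∈ E N ↔ l.length ≤ N ∧ ∀ b ∈ l, b ∈ e N

/-- CPS: the bound is computable. -/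
def S_CPS : Prop := Primrec ps

/-- the Coxeter matrix on `Fin n` given by a list of lists of natural numbers: the label of `i < j`
is the entry `(i, j)`; missing entries and the entries `0` and `1` stand for infinity -/
def mat (n : ℕ) (L : List (List ℕ)) : CoxeterMatrix (Fin n) where
  M := Matrix.of fun i j => if i = j then 1 else
    if (L.getD (min i.val j.val) []).getD (max i.val j.val) 0 = 1 then 0
    else (L.getD (min i.val j.val) []).getD (max i.val j.val) 0
  isSymm := by
    ext i j
    simp only [Matrix.transpose_apply, Matrix.of_apply]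
    by_cases h : i = j
    · subst h; rfl
    · rw [if_neg h, if_neg (Ne.symm h), min_comm, max_comm]
  diagonal i := by simp
  off_diagonal i j h := by
    simp only [Matrix.of_apply, if_neg h]
    split_ifs with h1
    · norm_num
    · exact h1

/-- the value of a word over `ℕ × Bool` in the Artin group of a matrix on `Fin n`; letters `≥ n` are
ignored -/
def nval {n : ℕ} (M : CoxeterMatrix (Fin n)) (w : List (ℕ × Bool)) : ArtinGroup M :=
  (w.map fun p => if h : p.1 < n then
    (if p.2 then (PresentedGroup.of ⟨p.1, h⟩ : ArtinGroup M) else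
      (PresentedGroup.of ⟨p.1, h⟩ : ArtinGroup M)⁻¹) else 1).prod

/-- the word problem of all Artin groups, as a predicate on codes `(n, L, w)` -/
def Triv (x : ℕ × List (List ℕ) × List (ℕ × Bool)) : Prop := nval (mat x.1 x.2.1) x.2.2 = 1

/-- CUN: the uniform word problem reduces to labels less than 100. -/
def S_CUN : Prop :=
  (∃ f : ℕ × List (List ℕ) × List (ℕ × Bool) → Bool, Computable f ∧
    ∀ x, (∀ i j, mat x.1 x.2.1 i j < 100) → (f x = true ↔ Triv x)) →
  ∃ f : ℕ × List (List ℕ) × List (ℕ × Bool) → Bool, Computable f ∧ ∀ x, f x = true ↔ Triv x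

/-- the value of a word over `Fin n × Bool` in the Artin group -/
def fval {n : ℕ} (M : CoxeterMatrix (Fin n)) (w : List (Fin n × Bool)) : ArtinGroup M :=
  (w.map fun p => if p.2 then (PresentedGroup.of p.1 : ArtinGroup M) else
    (PresentedGroup.of p.1 : ArtinGroup M)⁻¹).prod

/-- CNU: the word problem of one Artin group reduces to the group of the truncated matrix. -/
def S_CNU : Prop := ∀ (n : ℕ) (M : CoxeterMatrix (Fin n)),
  ComputablePred (fun w : List (Fin n × Bool) => fval (tr M) w = 1) →
  ComputablePred (fun w : List (Fin n × Bool) => fval M w = 1)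

end Pool.Agent.L0h29.AL
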