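import Pool.Agent.L0h29.AL.ArtDefs2

/-!
# Project AL, part 2: general form of the reduction and the right-angled base case
-/

set_option autoImplicit false

namespace Pool.Agent.L0h29.AL

open Pool.Agent.K7.H20.AW

/-- all entries `≥ 100` are replaced by `0` (infinity) -/
def trL (L : List (List ℕ)) : List (List ℕ) := L.map fun row => row.map fun a => if 100 ≤ a then 0 else a

/-- CUG: an algorithm for the truncated matrices gives an algorithm for the matrices. -/
def S_CUG : Prop := ∀ f0 : ℕ × List (List ℕ) × List (ℕ × Bool) → Bool, Computable f0 →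
  ∃ f : ℕ × List (List ℕ) × List (ℕ × Bool) → Bool, Computable f ∧
    ∀ n L, (∀ w, f0 (n, trL L, w) = true ↔ Triv (n, trL L, w)) →
      ∀ w, (f (n, L, w) = true ↔ Triv (n, L, w))

/-- RAC: the word problem of right-angled Artin groups. -/
def S_RAC : Prop := ∃ f0 : ℕ × List (List ℕ) × List (ℕ × Bool) → Bool, Computable f0 ∧
  ∀ n L, (∀ i j, mat n L i j ≤ 2) → ∀ w, (f0 (n, L, w) = true ↔ Triv (n, L, w))

end Pool.Agent.L0h29.AL
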