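import Pool.Agent.L0h29.AL.ArtDefs3
import Pool.Agent.K7.H20.AW.Few

/-!
# Project AL, part 3: infinite labels, dihedral cliques, and an unconditional class
-/

set_option autoImplicit false

namespace Pool.Agent.L0h29.AL

open Pool.Agent.K7.H20.AW

/-! ## 1. infinite labels -/

/-- the bound for the decomposition along infinite labels -/
def ga (k n : ℕ) : ℕ := (2 ^ (k + 1) * (n + 2)) ^ (k + 2)

/-- GPA: a relation of `A_M` is, in the free group, a product of boundedly many bounded conjugates of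
relations over subsets without infinite labels. -/
def S_GPA.{u} : Prop := ∀ (B : Type u) [Fintype B] [DecidableEq B] (M : CoxeterMatrix B)
  (w : List (B × Bool)), lval M w = 1 →
  ∃ c : List (List (B × Bool) × List (B × Bool) × Finset B),
    c.length ≤ ga (Fintype.card B) w.length ∧
    (∀ p ∈ c, p.1.length ≤ ga (Fintype.card B) w.length ∧
      p.2.1.length ≤ ga (Fintype.card B) w.length ∧ (∀ i ∈ p.2.2, ∀ j ∈ p.2.2, M i j ≠ 0) ∧
      (∀ a ∈ p.2.1, a.1 ∈ p.2.2) ∧ lval M p.2.1 = 1) ∧
    FreeGroup.mk w =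
      (c.map fun p => FreeGroup.mk p.1 * FreeGroup.mk p.2.1 * (FreeGroup.mk p.1)⁻¹).prod

/-- all labels outside `X × X` are replaced by `2` -/
def cl {B : Type*} [DecidableEq B] (M : CoxeterMatrix B) (X : Finset B) : CoxeterMatrix B where
  M := Matrix.of fun i j => if i = j then 1 else if i ∈ X ∧ j ∈ X then M i j else 2
  isSymm := by
    ext i j
    simp only [Matrix.transpose_apply, Matrix.of_apply]
    by_cases h : i = j
    · subst h; rfl
    · rw [if_neg h, if_neg (Ne.symm h), M.symmetric j i]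
      simp only [and_comm (a := i ∈ X)]
  diagonal i := by simp
  off_diagonal i j h := by
    simp only [Matrix.of_apply, if_neg h]
    split_ifs
    · exact M.off_diagonal i j h
    · norm_num

/-- CLX: relations over `X` are the same in `A_M` and in the group of `cl M X`. -/
def S_CLX.{u} : Prop := ∀ (B : Type u) [Fintype B] [DecidableEq B] (M : CoxeterMatrix B)
  (X : Finset B) (w : List (B × Bool)), (∀ a ∈ w, a.1 ∈ X) → (lval M w = 1 ↔ lval (cl M X) w = 1)

/-! ## 2. products of dihedral Artin groups -/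

/-- the bound for products of dihedral groups -/
def dq (N : ℕ) : ℕ := (N + 1) ^ 2 * bd N N

/-- DPR: relations over a clique all of whose triples have two labels `2` have bounded area modulo the
commutations. -/
def S_DPR.{u} : Prop := ∀ (B : Type u) [Fintype B] [DecidableEq B] (M : CoxeterMatrix B)
  (X : Finset B) (N : ℕ), (∀ i j, M i j ≤ N) → (∀ i ∈ X, ∀ j ∈ X, M i j ≠ 0) →
  (∀ i ∈ X, ∀ j ∈ X, ∀ k ∈ X, i ≠ j → j ≠ k → i ≠ k →
    (M i j = 2 ∧ M j k = 2) ∨ (M i j = 2 ∧ M i k = 2) ∨ (M j k = 2 ∧ M i k = 2)) →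
  ∀ r : List (B × Bool), r.length ≤ N → (∀ a ∈ r, a.1 ∈ X) → lval M r = 1 →
  ∃ c : List (List (B × Bool) × B × B × Bool), c.length ≤ dq N ∧ (∀ p ∈ c, p.1.length ≤ dq N) ∧
    lval (ra M) r = lval (ra M) (exw (fun i j => M i j) c)

/-- every triple of generators with three finite labels `< 100` has two labels `2` -/
def PP {B : Type*} (M : CoxeterMatrix B) : Prop := ∀ i j k, i ≠ j → j ≠ k → i ≠ k →
  (M i j ≠ 0 ∧ M i j < 100) → (M j k ≠ 0 ∧ M j k < 100) → (M i k ≠ 0 ∧ M i k < 100) →
  (M i j = 2 ∧ M j k = 2) ∨ (M i j = 2 ∧ M i k = 2) ∨ (M j k = 2 ∧ M i k = 2)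

/-- length of the word after the first step -/
def n1 (N : ℕ) : ℕ := N + ps N * (2 * ps N + 2 * N)

/-- the total bound -/
def th (N : ℕ) : ℕ := (ga (n1 N) (n1 N) + 2) * (dq (ga (n1 N) (n1 N)) + 2) + ps N

/-- BGR: relations of `A_M` have bounded area modulo the commutations if `PP M`. -/
def S_BGR : Prop := ∀ (n : ℕ) (M : CoxeterMatrix (Fin n)), PP M → ∀ (w : List (Fin n × Bool))
  (N : ℕ), n ≤ N → w.length ≤ N → (∀ i j, M i j ≤ N) →
  (lval M w = 1 ↔ ∃ c : List (List (Fin n × Bool) × Fin n × Fin n × Bool), c.length ≤ th N ∧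
    (∀ p ∈ c, p.1.length ≤ th N) ∧ lval (ra M) (w ++ exw (fun i j => M i j) c) = 1)

/-! ## 3. computability -/

/-- CPT: the total bound is computable. -/
def S_CPT : Prop := Primrec th

/-- CUR: the word problem is uniformly solvable for all matrices with property `PP`. -/
def S_CUR : Prop := ∃ f : ℕ × List (List ℕ) × List (ℕ × Bool) → Bool, Computable f ∧
  ∀ n L, PP (mat n L) → ∀ w, (f (n, L, w) = true ↔ Triv (n, L, w))

/-- the label read from the list -/
def ent (L : List (List ℕ)) (i j : ℕ) : ℕ := (L.getD (min i j) []).getD (max i j) 0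

/-- the table of the matrix in which all labels outside `X` are replaced by `2` -/
def clL (n : ℕ) (L : List (List ℕ)) (X : List ℕ) : List (List ℕ) :=
  (List.range n).map fun i => (List.range n).map fun j => if i ∈ X ∧ j ∈ X then ent L i j else 2

/-- GPG: an algorithm for the infinity-free parabolic subgroups gives one for the whole group. -/
def S_GPG : Prop := ∀ f0 : ℕ × List (List ℕ) × List (ℕ × Bool) → Bool, Computable f0 →
  ∃ f : ℕ × List (List ℕ) × List (ℕ × Bool) → Bool, Computable f ∧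
    ∀ n L, (∀ X : List ℕ, (∀ i j : Fin n, i.val ∈ X → j.val ∈ X → mat n L i j ≠ 0) →
        ∀ w, (f0 (n, clL n L X, w) = true ↔ Triv (n, clL n L X, w))) →
      ∀ w, (f (n, L, w) = true ↔ Triv (n, L, w))

/-- FIN: the uniform word problem of all Artin groups reduces to finite labels less than 100. -/
def S_FIN : Prop :=
  (∃ f : ℕ × List (List ℕ) × List (ℕ × Bool) → Bool, Computable f ∧
    ∀ x, (∀ i j, mat x.1 x.2.1 i j ≠ 0 ∧ mat x.1 x.2.1 i j < 100) → (f x = true ↔ Triv x)) →
  ∃ f : ℕ × List (List ℕ) × List (ℕ × Bool) → Bool, Computable f ∧ ∀ x, f x = true ↔ Triv x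

end Pool.Agent.L0h29.AL
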