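import Pool.Agent.L0h29.AL.ArtDefs4
import Pool.Agent.Helper741.Garside
import Mathlib.Algebra.PresentedMonoid.Basic

/-!
# Project AL, part 4: Artin groups whose small cliques are spherical
-/

set_option autoImplicit false

namespace Pool.Agent.L0h29.AL

open Pool.Agent.K7.H20.AW Pool.Agent.K7.H87.FJ6 CoxeterSystem

/-- prefix order of a Coxeter group -/
def Pl {B W : Type*} [Group W] {M : CoxeterMatrix B} (cs : CoxeterSystem M W) (u v : W) : Prop :=
  cs.length u + cs.length (u⁻¹ * v) = cs.length v

/-- MEE: the prefix order has meets. -/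
def S_MEE.{u, v} : Prop := ∀ (B : Type u) [Fintype B] [DecidableEq B] (M : CoxeterMatrix B)
  (W : Type v) [Group W] (cs : CoxeterSystem M W) (a b : W),
  ∃ m, Pl cs m a ∧ Pl cs m b ∧ ∀ x, Pl cs x a → Pl cs x b → Pl cs x m

/-- MAT: Matsumoto's theorem for monoids. -/
def S_MAT.{u, v} : Prop := ∀ (B : Type u) [Fintype B] [DecidableEq B] (M : CoxeterMatrix B)
  (Q : Type v) [Monoid Q] (f : B → Q),
  (∀ i j, Pool.Agent.Helper741.alt (f i) (f j) (M i j) =
    Pool.Agent.Helper741.alt (f j) (f i) (M i j)) →
  ∀ ω ω' : List B, M.toCoxeterSystem.IsReduced ω → M.toCoxeterSystem.IsReduced ω' →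
    M.toCoxeterSystem.wordProd ω = M.toCoxeterSystem.wordProd ω' →
    (ω.map f).prod = (ω'.map f).prod

/-- the alternating positive word -/
def awp {B : Type*} : ℕ → B → B → List B
  | 0, _, _ => []
  | (m + 1), i, j => i :: awp m j i

/-- the relations of the Artin monoid -/
def APr {B : Type*} (M : CoxeterMatrix B) (x y : FreeMonoid B) : Prop :=
  ∃ i j, x = FreeMonoid.ofList (awp (M i j) i j) ∧ y = FreeMonoid.ofList (awp (M i j) j i)

/-- the Artin monoid -/
abbrev AP {B : Type*} (M : CoxeterMatrix B) : Type _ := PresentedMonoid (APr M)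

/-- the element of the Artin monoid represented by a positive word -/
def pm {B : Type*} (M : CoxeterMatrix B) (l : List B) : AP M :=
  PresentedMonoid.mk (APr M) (FreeMonoid.ofList l)

/-- LCN: the Artin monoid of a finite Coxeter group is left cancellative. -/
def S_LCN.{u} : Prop := ∀ (B : Type u) [Fintype B] [DecidableEq B] (M : CoxeterMatrix B),
  Finite M.Group → ∀ x y z : AP M, x * y = x * z → y = z

/-- RCN: and right cancellative. -/
def S_RCN.{u} : Prop := ∀ (B : Type u) [Fintype B] [DecidableEq B] (M : CoxeterMatrix B),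
  Finite M.Group → ∀ x y z : AP M, y * x = z * x → y = z

/-- FRC: the group of fractions with respect to a central element. -/
def S_FRC.{u} : Prop := ∀ (Q : Type u) [Monoid Q] (c : Q), (∀ x, c * x = x * c) →
  (∀ x y z : Q, x * y = x * z → y = z) → (∀ x y z : Q, y * x = z * x → y = z) →
  (∀ x : Q, ∃ (n : ℕ) (y : Q), x * y = c ^ n) →
  ∃ (G : Type u) (_ : Group G) (ι : Q →* G), Function.Injective ι

/-- DEL: the Garside element: a positive word `d` with `b d ~ d b'`, and `d ~ b u_b`. -/
def S_DEL.{u} : Prop := ∀ (B : Type u) [Fintype B] [DecidableEq B] (M : CoxeterMatrix B),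
  Finite M.Group → ∃ (d : List B) (σ : B → B) (v : B → List B), (∀ b, σ (σ b) = b) ∧
    (∀ b, pm M (b :: d) = pm M (d ++ [σ b])) ∧ (∀ b, pm M d = pm M (b :: v b))

/-- EMB: the Artin monoid of a finite Coxeter group embeds in the Artin group. -/
def S_EMB.{u} : Prop := ∀ (B : Type u) [Fintype B] [DecidableEq B] (M : CoxeterMatrix B),
  Finite M.Group → ∀ l l' : List B, (l.map (g M)).prod = (l'.map (g M)).prod → pm M l = pm M l'

/-- one braid move -/
def Mv {B : Type*} (M : CoxeterMatrix B) (l l' : List B) : Prop :=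
  ∃ (a b : List B) (i j : B), l = a ++ awp (M i j) i j ++ b ∧ l' = a ++ awp (M i j) j i ++ b

/-- CHN: equal positive words are joined by boundedly many braid moves. -/
def S_CHN.{u} : Prop := ∀ (B : Type u) [Fintype B] [DecidableEq B] (M : CoxeterMatrix B)
  (l l' : List B), pm M l = pm M l' → ∃ ch : List (List B), ch.head? = some l ∧
    ch.getLast? = some l' ∧ ch.length ≤ Fintype.card B ^ l.length + 1 ∧ ch.IsChain (Mv M) ∧
    ∀ x ∈ ch, x.length = l.length

/-- a word is, in the free group, a product of at most `N` conjugates of relators of `M` by words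
of length at most `N` -/
def Area {B : Type*} (M : CoxeterMatrix B) (w : List (B × Bool)) (N : ℕ) : Prop :=
  ∃ c : List (List (B × Bool) × B × B × Bool), c.length ≤ N ∧ (∀ p ∈ c, p.1.length ≤ N) ∧
    FreeGroup.mk w = FreeGroup.mk (exw (fun i j => M i j) c)

/-- ARE: rules for areas. -/
def S_ARE.{u} : Prop := ∀ (B : Type u) [Fintype B] [DecidableEq B] (M : CoxeterMatrix B),
  (∀ w N, Area M w N → lval M w = 1) ∧ (∀ w N N', N ≤ N' → Area M w N → Area M w N') ∧
  (∀ w w' N, FreeGroup.mk w = FreeGroup.mk w' → Area M w N → Area M w' N) ∧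
  (∀ w w' N N', Area M w N → Area M w' N' → Area M (w ++ w') (N + N')) ∧
  (∀ w N, Area M w N → Area M (inw w) N) ∧
  (∀ u w N, Area M w N → Area M (u ++ w ++ inw u) (N + u.length)) ∧
  (∀ a b : List B, ∀ i j : B, Area M ((a.map fun x => (x, true)) ++ aw (M i j) i j ++
    (b.map fun x => (x, true)) ++ inw ((a.map fun x => (x, true)) ++ aw (M i j) j i ++
    (b.map fun x => (x, true)))) (a.length + 1))

/-- SPA: the area in an Artin group of spherical type is bounded by an explicit function. -/
def S_SPA.{u} : Prop := ∀ (B : Type u) [Fintype B] [DecidableEq B] (M : CoxeterMatrix B),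
  Finite M.Group → ∃ K : ℕ, ∀ w : List (B × Bool), lval M w = 1 →
    Area M w (K ^ (K * (w.length + 1)))

/-- every set of generators whose labels are finite and `< 100` generates a finite Coxeter group
(the Coxeter group of the restricted matrix is finite) -/
def FCs {B : Type*} (M : CoxeterMatrix B) : Prop := ∀ X : Finset B,
  (∀ i ∈ X, ∀ j ∈ X, i ≠ j → M i j ≠ 0 ∧ M i j < 100) →
  Finite (pull M (Subtype.val : {i // i ∈ X} → B) Subtype.val_injective).Group

/-- FCA: bounded areas. -/
def S_FCA : Prop := ∀ (n : ℕ) (M : CoxeterMatrix (Fin n)), FCs M → ∃ Θ : ℕ → ℕ, Primrec Θ ∧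
  ∀ w : List (Fin n × Bool), lval M w = 1 → Area M w (Θ w.length)

/-- FCC: the word problem is solvable. -/
def S_FCC : Prop := ∀ (n : ℕ) (M : CoxeterMatrix (Fin n)), FCs M →
  ComputablePred (fun w : List (Fin n × Bool) => fval M w = 1)

end Pool.Agent.L0h29.AL
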