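import Pool.Agent.L0h29.AL.ArtDefs4

/-!
# Project AL: the final relative statements
-/

set_option autoImplicit false

namespace Pool.Agent.L0h29.AL

open Pool.Agent.K7.H20.AW

/-- REL: an algorithm for the infinity-free parabolic subgroups with labels `< 100` gives an algorithm
for the group (uniform version). -/
def S_REL : Prop := ∀ f0 : ℕ × List (List ℕ) × List (ℕ × Bool) → Bool, Computable f0 →
  ∃ f : ℕ × List (List ℕ) × List (ℕ × Bool) → Bool, Computable f ∧
    ∀ n L, (∀ X : List ℕ,
        (∀ i j : Fin n, i.val ∈ X → j.val ∈ X → mat n L i j ≠ 0 ∧ mat n L i j < 100) →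
        ∀ w, (f0 (n, clL n L X, w) = true ↔ Triv (n, clL n L X, w))) →
      ∀ w, (f (n, L, w) = true ↔ Triv (n, L, w))

/-- NUR: the same for a single group: if the words over `X` which are trivial in `A_M` form a decidable
set for every set `X` of generators all of whose labels are finite and `< 100`, then the word problem of
`A_M` is solvable. -/
def S_NUR : Prop := ∀ (n : ℕ) (M : CoxeterMatrix (Fin n)),
  (∀ X : Finset (Fin n), (∀ i ∈ X, ∀ j ∈ X, M i j ≠ 0 ∧ M i j < 100) →
    ComputablePred (fun w : List (Fin n × Bool) => (∀ a ∈ w, a.1 ∈ X) ∧ fval M w = 1)) →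
  ComputablePred (fun w : List (Fin n × Bool) => fval M w = 1)

end Pool.Agent.L0h29.AL
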