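import Pool.Agent.L0h29.AL.ArtDefs5

/-!
# Project AL, part 5: one algorithm for all matrices whose small cliques are spherical
-/

set_option autoImplicit false

namespace Pool.Agent.L0h29.AL

open Pool.Agent.K7.H20.AW

/-- the constant of the spherical case -/
def kk (N : ℕ) : ℕ := (2 * N + 10) ^ (2 * N + 10)

/-- SPU: the area bound in an Artin group of spherical type, with an explicit constant. -/
def S_SPU.{u} : Prop := ∀ (B : Type u) [Fintype B] [DecidableEq B] (M : CoxeterMatrix B),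
  Finite M.Group → ∀ (d : List B) (σ : B → B) (v : B → List B), (∀ b, σ (σ b) = b) →
    (∀ b, pm M (b :: d) = pm M (d ++ [σ b])) → (∀ b, pm M d = pm M (b :: v b)) →
    ∀ w : List (B × Bool), lval M w = 1 →
      Area M w (kk (Fintype.card B + d.length) ^ (kk (Fintype.card B + d.length) * (w.length + 1)))

/-- a positive word -/
def po {B : Type*} (l : List B) : List (B × Bool) := l.map fun x => (x, true)

/-- Garside data of size at most `D` for the set `X`: a positive word `d` over `X` such that for every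
`b` in `X` there are `b'` in `X` and a positive word `v` over `X` with `b d = d b'`, `b' d = d b` and
`d = b v`, witnessed by areas at most `D` -/
def GD {B : Type*} (M : CoxeterMatrix B) (X : Finset B) (D : ℕ) : Prop :=
  ∃ d : List B, d.length ≤ D ∧ (∀ a ∈ d, a ∈ X) ∧ ∀ b ∈ X, ∃ b' ∈ X, ∃ v : List B, v.length ≤ D ∧
    (∀ a ∈ v, a ∈ X) ∧ Area M (po (b :: d) ++ inw (po (d ++ [b']))) D ∧
    Area M (po (b' :: d) ++ inw (po (d ++ [b]))) D ∧ Area M (po d ++ inw (po (b :: v))) D

/-- all labels of the set `X` are finite and `< 100` -/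
def Sm {n : ℕ} (M : CoxeterMatrix (Fin n)) (X : Finset (Fin n)) : Prop :=
  ∀ i ∈ X, ∀ j ∈ X, i ≠ j → M i j ≠ 0 ∧ M i j < 100

/-- GDX: Garside data exist. -/
def S_GDX : Prop := ∀ (n : ℕ) (M : CoxeterMatrix (Fin n)), FCs M → ∃ D, ∀ X, Sm M X → GD M X D

/-- the total bound -/
def tt (D N : ℕ) : ℕ := (ga (n1 N) (n1 N) + 2) *
  (kk (N + D) ^ (kk (N + D) * (ga (n1 N) (n1 N) + 2)) + ga (n1 N) (n1 N) + 2) + ps N + N

/-- FCB: bounded areas, uniformly. -/
def S_FCB : Prop := ∀ (n : ℕ) (M : CoxeterMatrix (Fin n)), FCs M → ∀ D, (∀ X, Sm M X → GD M X D) →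
  ∀ (w : List (Fin n × Bool)) (N : ℕ), n ≤ N → w.length ≤ N → (∀ i j, M i j ≤ N) → lval M w = 1 →
  Area M w (tt D N)

/-- TTC: the total bound is computable. -/
def S_TTC : Prop := Primrec₂ tt

/-- ACO: areas are computable. -/
def S_ACO : Prop := ∃ a : (ℕ × List (List ℕ)) × List (ℕ × Bool) × ℕ → Bool, Computable a ∧
  ∀ n L (w : List (Fin n × Bool)) (N : ℕ),
    (a ((n, L), w.map (fun p => (p.1.val, p.2)), N) = true ↔ Area (mat n L) w N)

/-- GDC: Garside data are computable. -/
def S_GDC : Prop := ∃ q : ℕ × List (List ℕ) × ℕ → Bool, Computable q ∧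
  ∀ n L D, (q (n, L, D) = true ↔ ∀ X : Finset (Fin n), Sm (mat n L) X → GD (mat n L) X D)

/-- FCU: one algorithm solves the word problem for all matrices whose small cliques are spherical. -/
def S_FCU : Prop := ∃ f : ℕ × List (List ℕ) × List (ℕ × Bool) →. Bool, Partrec f ∧
  ∀ n L, FCs (mat n L) → ∀ w, ∃ b ∈ f (n, L, w), (b = true ↔ Triv (n, L, w))

end Pool.Agent.L0h29.AL
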