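import Pool.Agent.L0h29.AL.ArtDefs2
import Pool.Agent.L0h97.AL.FRE

/-!
# Project AL: module DAT (the data of an Artin group with an infinite label)
-/

set_option autoImplicit false
set_option linter.unusedSectionVars false

namespace Pool.Agent.L0h29.AL

open Pool.Agent.K7.H20.AW Pool.Agent.K7.H87.FJ6 Pool.Agent.L0h97.AL

universe u

section gen

variable {G : Type*} [Group G] (x : Bool → G)

lemma syl_mul' (τ : Bool) (j : ℤ) (l : List (Bool × ℤ)) (hl : Syl l) :
    ∃ l', Syl l' ∧ ev x l' = x τ ^ j * ev x l := by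
  by_cases hj : j = 0
  · exact ⟨l, hl, by rw [hj]; simp⟩
  match l, hl with
  | [], _ => exact ⟨[(τ, j)], Syl_cons hj (by simp) Syl_nil, ev_cons _ _ _⟩
  | (σ, k) :: t, hl =>
    by_cases hts : τ = σ
    · subst hts
      have ht := (List.isChain_cons.1 hl.1).1
      by_cases hk : j + k = 0
      · refine ⟨t, Syl_tail hl, ?_⟩
        rw [ev_cons, ← mul_assoc, ← zpow_add, hk]; simp
      · refine ⟨(τ, j + k) :: t, Syl_cons hk ht (Syl_tail hl), ?_⟩
        rw [ev_cons, ev_cons, ← mul_assoc, ← zpow_add]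
    · exact ⟨(τ, j) :: (σ, k) :: t, Syl_cons hj (by simpa using hts) hl, ev_cons _ _ _⟩

lemma syl_ex (f : G) (hf : f ∈ Subgroup.closure (Set.range x)) : ∃ l, Syl l ∧ ev x l = f := by
  induction hf using Subgroup.closure_induction_left with
  | one => exact ⟨[], Syl_nil, rfl⟩
  | mul_left y hy z hz ih =>
    obtain ⟨τ, rfl⟩ := hy
    obtain ⟨l, hl, rfl⟩ := ih
    simpa using syl_mul' x τ 1 l hl
  | inv_mul_cancel y hy z hz ih =>
    obtain ⟨τ, rfl⟩ := hy
    obtain ⟨l, hl, rfl⟩ := ih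
    simpa using syl_mul' x τ (-1) l hl

lemma syl_free (f : FreeGroup Bool) : ∃ l, Syl l ∧ ev FreeGroup.of l = f := by
  apply syl_ex
  rw [FreeGroup.closure_range_of]
  trivial

lemma ev_map {H : Type*} [Group H] (φ : G →* H) (l : List (Bool × ℤ)) :
    φ (ev x l) = ev (fun τ => φ (x τ)) l := by
  rw [ev, ev, map_list_prod, List.map_map]
  congr 1
  apply List.map_congr_left
  intro a _
  show φ (x a.1 ^ a.2) = φ (x a.1) ^ a.2
  rw [map_zpow]

lemma lift_ev (l : List (Bool × ℤ)) : FreeGroup.lift x (ev FreeGroup.of l) = ev x l := by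
  rw [ev_map]
  simp

end gen

section art

variable {B : Type u} [Fintype B] [DecidableEq B] {M : CoxeterMatrix B} {s t : B}

lemma xx_mem (hst : s ≠ t) (τ : Bool) : xx M s t τ ∈ AA M s t τ := by
  cases τ
  · show g M t ∈ P M {s}ᶜ
    exact g_mem (fun h => hst h.symm)
  · show g M s ∈ P M {t}ᶜ
    exact g_mem (fun h => hst h)

lemma C_le_AA (τ : Bool) : P M {s, t}ᶜ ≤ AA M s t τ := by
  cases τ
  · show P M {s, t}ᶜ ≤ P M {s}ᶜ
    exact P_mono (fun b hb h => hb (Or.inl h))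
  · show P M {s, t}ᶜ ≤ P M {t}ᶜ
    exact P_mono (fun b hb h => hb (Or.inr h))

lemma C_le_s : P M {s, t}ᶜ ≤ P M {s}ᶜ := P_mono (fun _ hb h => hb (Or.inl h))

lemma C_le_t : P M {s, t}ᶜ ≤ P M {t}ᶜ := P_mono (fun _ hb h => hb (Or.inr h))

lemma xx_pow (τ : Bool) (k : ℤ) (h : xx M s t τ ^ k ∈ P M {s, t}ᶜ) : k = 0 := by
  cases τ
  · exact pow_mem (b := t) (C_le_t h)
  · exact pow_mem (b := s) (C_le_s h)

lemma xx_two (τ : Bool) (c : Art M) (hc : c ∈ P M {s, t}ᶜ) (j k : ℤ) (hk : Odd k)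
    (h : xx M s t τ ^ j * c * xx M s t τ ^ k ∈ P M {s, t}ᶜ) : Commute c (xx M s t τ) := by
  have key : ∀ b : B, c ∈ P M {b}ᶜ → g M b ^ j * c * g M b ^ k ∈ P M {b}ᶜ → Commute c (g M b) := by
    intro b hcb hb
    rcases Pool.Agent.K7.H20.AW.two hcb hb rfl with ⟨-, -, h3⟩ | ⟨-, h2, -⟩
    · have h4 := comm_P h3 1
      rw [zpow_one] at h4
      exact h4.symm
    · exact absurd hk (Int.not_odd_iff_even.2 h2)
  cases τ
  · exact key t (C_le_t hc) (C_le_t h)
  · exact key s (C_le_s hc) (C_le_s h)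

/-- the amalgam -/
def amal (hRED : S_RED.{u}) (hst : s ≠ t) (h0 : M s t = 0) : Amal (Art M) where
  A := AA M s t
  C := P M {s, t}ᶜ
  le := C_le_AA
  red := hRED B M s t hst h0
  gen := by
    rw [eq_top_iff, ← Sh.closure_range_gen (M := M) (p := z0 B), Subgroup.closure_le]
    rintro _ ⟨b, rfl⟩
    by_cases hb : b = t
    · subst hb
      exact Subgroup.mem_sup_right (show g M b ∈ P M {s}ᶜ from g_mem (fun h => hst h.symm))
    · exact Subgroup.mem_sup_left (show g M b ∈ P M {t}ᶜ from g_mem hb)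

lemma syl_one (hRED : S_RED.{u}) (hst : s ≠ t) (h0 : M s t = 0) (l : List (Bool × ℤ)) (hl : Syl l)
    (h : ev (xx M s t) l ∈ P M {s, t}ᶜ) : l = [] := by
  by_contra hne
  have h1 := hRED B M s t hst h0 (l.map fun a => (a.1, xx M s t a.1 ^ a.2)) (by simpa using hne)
    (by
      intro y hy
      obtain ⟨a, ha, rfl⟩ := List.mem_map.1 hy
      exact ⟨zpow_mem (xx_mem hst a.1) a.2, fun h => hl.2 a ha (xx_pow a.1 a.2 h)⟩)
    (by rw [List.isChain_map]; exact hl.1)
  rw [List.map_map] at h1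
  exact h1 h

lemma lift_inj (hRED : S_RED.{u}) (hst : s ≠ t) (h0 : M s t = 0) :
    Function.Injective (FreeGroup.lift (xx M s t)) := by
  rw [injective_iff_map_eq_one]
  intro f hf
  obtain ⟨l, hl, rfl⟩ := syl_free f
  rw [lift_ev] at hf
  have h1 := syl_one hRED hst h0 l hl (by rw [hf]; exact one_mem _)
  subst h1
  rfl

lemma lift_mem (f : FreeGroup Bool) :
    FreeGroup.lift (xx M s t) f ∈ Subgroup.closure (Set.range (xx M s t)) := by
  obtain ⟨l, -, rfl⟩ := syl_free f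
  rw [lift_ev, ev]
  apply Subgroup.list_prod_mem
  intro y hy
  obtain ⟨a, -, rfl⟩ := List.mem_map.1 hy
  have h1 : xx M s t a.1 ∈ Subgroup.closure (Set.range (xx M s t)) :=
    Subgroup.subset_closure (Set.mem_range_self _)
  exact zpow_mem h1 a.2

lemma exists_lift {f : Art M} (hf : f ∈ Subgroup.closure (Set.range (xx M s t))) :
    ∃ f', FreeGroup.lift (xx M s t) f' = f := by
  obtain ⟨l, -, rfl⟩ := syl_ex _ f hf
  exact ⟨_, lift_ev _ l⟩

/-- the data -/
def dat (hRED : S_RED.{u}) (hDIH : S_DIH) (hst : s ≠ t) (h0 : M s t = 0) (m : ℕ) (hm : 82 ≤ m) :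
    Dat (Art M) where
  toAmal := amal hRED hst h0
  x := xx M s t
  hx := xx_mem hst
  pw := xx_pow
  two := xx_two
  K := KK M s t m
  hK := by
    rintro _ ⟨f, -, rfl⟩
    exact lift_mem f
  nK := by
    rintro f hf _ ⟨k, hk, rfl⟩
    obtain ⟨f', rfl⟩ := exists_lift hf
    refine ⟨f' * k * f'⁻¹, ?_, by simp⟩
    exact (Subgroup.normalClosure_normal (s := {rm m})).conj_mem k hk f'
  m := m
  hm := hm
  long := by
    rintro l hl hne ⟨f, hf, he⟩
    have h1 : f = ev FreeGroup.of l := by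
      apply lift_inj hRED hst h0
      rw [he, lift_ev]
    rw [h1] at hf
    exact hDIH m (by omega) l hl hne hf

end art

theorem DAT (hRED : S_RED.{u}) (hDIH : S_DIH) : S_DAT.{u} := by
  intro B _ _ M s t hst h0 m hm
  exact ⟨dat hRED hDIH hst h0 m hm, rfl, rfl, rfl, rfl, rfl⟩

end Pool.Agent.L0h29.AL
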