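import Pool.Agent.L0h29.AL.MAI
import Pool.Agent.L0h29.AL.DAT
import Pool.Agent.L0h38.AL.CVX
import Pool.Agent.L0h38.AL.DSP
import Pool.Agent.L0h38.AL.FAM
import Pool.Agent.L0h38.AL.EQV
import Pool.Agent.L0h38.AL.KER
import Pool.Agent.L0h38.AL.CNT
import Pool.Agent.L0h72.AL.WIN
import Pool.Agent.L0h72.AL.DIH
import Pool.Agent.L0h97.AL.TRE
import Pool.Agent.L0h97.AL.UNQ
import Pool.Agent.L0h97.AL.FRE
import Pool.Agent.L0h68.AL.Red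

/-!
# Project AL, part 1: assembly
-/

set_option autoImplicit false

namespace Pool.Agent.L0h29.AL

open Pool.Agent.K7.H20.AW

universe u

theorem a_CVX : S_CVX.{u} := Pool.Agent.L0h38.AL.cvx_of Pool.Agent.L0h97.AL.t_UNQ Pool.Agent.L0h97.AL.t_FRE

theorem a_DSP : S_DSP.{u} := Pool.Agent.L0h38.AL.dsp_of Pool.Agent.L0h97.AL.t_TRI
  Pool.Agent.L0h97.AL.t_SUB Pool.Agent.L0h97.AL.t_FRE a_CVX Pool.Agent.L0h38.AL.eqv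

theorem a_DCH : S_DCH.{u} := Pool.Agent.L0h38.AL.dch_of Pool.Agent.L0h97.AL.t_TRI
  Pool.Agent.L0h97.AL.t_SUB Pool.Agent.L0h97.AL.t_FRE Pool.Agent.L0h97.AL.t_RIG a_CVX
  Pool.Agent.L0h38.AL.eqv

theorem a_FAM : S_FAM.{u} := Pool.Agent.L0h38.AL.fam_of Pool.Agent.L0h72.AL.WIN.{u, u, u}
  Pool.Agent.L0h97.AL.t_UNQ Pool.Agent.L0h97.AL.t_TRI Pool.Agent.L0h97.AL.t_SUB
  Pool.Agent.L0h38.AL.eqv a_DSP a_DCH

theorem a_ONE : S_ONE.{u} := ONE (DAT Pool.Agent.L0h68.AL.red Pool.Agent.L0h72.AL.DIH)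
  Pool.Agent.L0h97.AL.t_TRE a_FAM Pool.Agent.L0h38.AL.ker
  (Pool.Agent.L0h38.AL.cnt_of Pool.Agent.L0h97.AL.t_SUB Pool.Agent.L0h97.AL.t_CRS)
  Pool.Agent.L0h97.AL.t_SUB

theorem a_MAI : S_MAI.{u} := MAI a_ONE

end Pool.Agent.L0h29.AL
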