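import Pool.Agent.L0h29.AL.CEX

/-!
# Project AL2, parts CUN and CNU: the reduction of the word problem to labels less than 100
-/

set_option autoImplicit false

namespace Pool.Agent.L0h29.AL

open Pool.Agent.K7.H20.AW Pool.Agent.K7.H87.FJ6 Pool.Agent.Helper741

/-! ### Values of words -/

section val

variable {B : Type*} (M : CoxeterMatrix B)

theorem lval_nil' : lval M [] = 1 := rfl

theorem lval_cons' (p : B × Bool) (w : List (B × Bool)) :
    lval M (p :: w) = (if p.2 then g M p.1 else (g M p.1)⁻¹) * lval M w := rfl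

theorem lval_append' (u w : List (B × Bool)) : lval M (u ++ w) = lval M u * lval M w := by
  unfold lval
  rw [List.map_append, List.prod_append]

theorem inw_cons' {β : Type*} (p : β × Bool) (w : List (β × Bool)) :
    inw (p :: w) = inw w ++ [(p.1, !p.2)] := by
  unfold inw
  rw [List.map_cons, List.reverse_cons]

theorem lval_inw' (u : List (B × Bool)) : lval M (inw u) = (lval M u)⁻¹ := by
  induction u with
  | nil => simp [inw, lval]
  | cons p u ih =>
    rw [inw_cons', lval_append', ih, lval_cons' M p u, mul_inv_rev, lval_cons', lval_nil', mul_one]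
    congr 1
    cases p.2 <;> simp

end val

theorem exw_nil' {β : Type*} (lab : β → β → ℕ) : exw lab [] = [] := rfl

theorem exw_cons' {β : Type*} (lab : β → β → ℕ) (p : List (β × Bool) × β × β × Bool)
    (c : List (List (β × Bool) × β × β × Bool)) : exw lab (p :: c) =
    (p.1 ++ rw' (lab p.2.1 p.2.2.1) p.2.1 p.2.2.1 p.2.2.2 ++ inw p.1) ++ exw lab c := by
  unfold exw
  rw [List.flatMap_cons]

section conv

variable {n : ℕ}

/-- drop the letters `≥ n` -/
def cv (n : ℕ) (w : List (ℕ × Bool)) : List (Fin n × Bool) :=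
  w.filterMap fun p => if h : p.1 < n then some (⟨p.1, h⟩, p.2) else none

theorem cv_append (u w : List (ℕ × Bool)) : cv n (u ++ w) = cv n u ++ cv n w := by
  unfold cv
  rw [List.filterMap_append]

theorem cv_cons (p : ℕ × Bool) (w : List (ℕ × Bool)) : cv n (p :: w) = cv n [p] ++ cv n w := by
  rw [← cv_append]; rfl

theorem cv_one (p : ℕ × Bool) : cv n [p] = if h : p.1 < n then [(⟨p.1, h⟩, p.2)] else [] := by
  unfold cv
  by_cases h : p.1 < n <;> simp [h]

theorem cv_inw (u : List (ℕ × Bool)) : cv n (inw u) = inw (cv n u) := by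
  induction u with
  | nil => rfl
  | cons p u ih =>
    rw [inw_cons', cv_append, ih, cv_one, cv_cons p u, cv_one]
    by_cases h : p.1 < n
    · simp only [h, dif_pos]
      rw [List.singleton_append, inw_cons']
    · simp [h]

theorem cv_aw (m : ℕ) : ∀ (i j : Fin n), cv n (aw m i.val j.val) = aw m i j := by
  induction m with
  | zero => intro i j; rfl
  | succ m ih =>
    intro i j
    rw [aw, cv_cons, cv_one, ih j i, dif_pos i.2]
    rfl

theorem cv_rw (m : ℕ) (i j : Fin n) (b : Bool) :
    cv n (rw' m i.val j.val b) = rw' m i j b := by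
  unfold rw'
  cases b
  · simp only [Bool.false_eq_true, if_false, cv_append, cv_inw, cv_aw]
  · simp only [if_true, cv_append, cv_inw, cv_aw]

/-- convert a list of conjugates -/
def cvc (n : ℕ) (c : List (List (ℕ × Bool) × ℕ × ℕ × Bool)) :
    List (List (Fin n × Bool) × Fin n × Fin n × Bool) :=
  c.filterMap fun p => if h : p.2.1 < n ∧ p.2.2.1 < n then
    some (cv n p.1, ⟨p.2.1, h.1⟩, ⟨p.2.2.1, h.2⟩, p.2.2.2) else none

/-- the label with natural numbers as arguments -/
def lb (n : ℕ) (L : List (List ℕ)) (i j : ℕ) : ℕ :=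
  if i < n ∧ j < n then (if i = j then 1 else
    if (L.getD (min i j) []).getD (max i j) 0 = 1 then 0
    else (L.getD (min i j) []).getD (max i j) 0) else 0

theorem lb_mat (L : List (List ℕ)) (i j : Fin n) : lb n L i.val j.val = mat n L i j := by
  unfold lb
  rw [if_pos ⟨i.2, j.2⟩]
  by_cases h : i = j
  · subst h
    rw [if_pos rfl, (mat n L).diagonal]
  · rw [if_neg (fun h' => h (Fin.ext h'))]
    show _ = (if i = j then 1 else
      if (L.getD (min i.val j.val) []).getD (max i.val j.val) 0 = 1 then 0
      else (L.getD (min i.val j.val) []).getD (max i.val j.val) 0)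
    rw [if_neg h]

theorem rw_zero {β : Type*} (i j : β) (b : Bool) : rw' 0 i j b = [] := by
  cases b <;> rfl

theorem lval_exw (M : CoxeterMatrix (Fin n)) (L : List (List ℕ))
    (c : List (List (ℕ × Bool) × ℕ × ℕ × Bool)) :
    lval M (cv n (exw (lb n L) c)) = lval M (exw (fun i j => mat n L i j) (cvc n c)) := by
  induction c with
  | nil => rfl
  | cons p c ih =>
    rw [exw_cons', cv_append, lval_append', ih]
    by_cases h : p.2.1 < n ∧ p.2.2.1 < n
    · have e : cvc n (p :: c) = (cv n p.1, ⟨p.2.1, h.1⟩, ⟨p.2.2.1, h.2⟩, p.2.2.2) :: cvc n c := by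
        unfold cvc
        rw [List.filterMap_cons_some (b := (cv n p.1, ⟨p.2.1, h.1⟩, ⟨p.2.2.1, h.2⟩, p.2.2.2))]
        simp [h]
      rw [e, exw_cons', lval_append']
      congr 1
      rw [cv_append, cv_append, cv_inw]
      have h1 := lb_mat L (⟨p.2.1, h.1⟩ : Fin n) ⟨p.2.2.1, h.2⟩
      have h2 := cv_rw (lb n L p.2.1 p.2.2.1) (⟨p.2.1, h.1⟩ : Fin n) ⟨p.2.2.1, h.2⟩ p.2.2.2
      simp only at h1 h2 ⊢
      rw [h2, h1]
    · have e : cvc n (p :: c) = cvc n c := by
        unfold cvc
        rw [List.filterMap_cons_none]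
        simp [h]
      have h0 : lb n L p.2.1 p.2.2.1 = 0 := by
        unfold lb
        rw [if_neg h]
      rw [e, h0, rw_zero, List.append_nil, cv_append, cv_inw, lval_append', lval_inw',
        mul_inv_cancel, one_mul]

/-- forget the bounds -/
def uc (w : List (Fin n × Bool)) : List (ℕ × Bool) := w.map fun p => (p.1.val, p.2)

theorem cv_uc (w : List (Fin n × Bool)) : cv n (uc w) = w := by
  induction w with
  | nil => rfl
  | cons p w ih =>
    have e : uc (p :: w) = (p.1.val, p.2) :: uc w := rfl
    rw [e, cv_cons, cv_one, ih, dif_pos p.1.2]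
    rfl

/-- forget the bounds -/
def ucc (c : List (List (Fin n × Bool) × Fin n × Fin n × Bool)) :
    List (List (ℕ × Bool) × ℕ × ℕ × Bool) :=
  c.map fun p => (uc p.1, p.2.1.val, p.2.2.1.val, p.2.2.2)

theorem cvc_ucc (c : List (List (Fin n × Bool) × Fin n × Fin n × Bool)) :
    cvc n (ucc c) = c := by
  induction c with
  | nil => rfl
  | cons p c ih =>
    have e : ucc (p :: c) = (uc p.1, p.2.1.val, p.2.2.1.val, p.2.2.2) :: ucc c := rfl
    rw [e]
    unfold cvc at ih ⊢
    rw [List.filterMap_cons_some (b := p), ih]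
    simp [cv_uc]

theorem fval_iff (M : CoxeterMatrix (Fin n)) (w : List (Fin n × Bool)) :
    fval M w = 1 ↔ lval M w = 1 := by
  have h1 : ∀ w, toArt M (fval M w) = lval M w := by
    intro w
    induction w with
    | nil => exact map_one _
    | cons p w ih =>
      have e : fval M (p :: w) = (if p.2 then (PresentedGroup.of p.1 : ArtinGroup M) else
        (PresentedGroup.of p.1 : ArtinGroup M)⁻¹) * fval M w := rfl
      rw [e, map_mul, ih, lval_cons']
      congr 1
      have hg : toArt M (PresentedGroup.of p.1) = g M p.1 := by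
        unfold toArt
        exact PresentedGroup.toGroup.of _
      cases p.2
      · simp only [Bool.false_eq_true, if_false, map_inv, hg]
      · simp only [if_true, hg]
  have h2 : ∀ w, ofArt M (lval M w) = fval M w := by
    intro w
    induction w with
    | nil => exact map_one _
    | cons p w ih =>
      have e : fval M (p :: w) = (if p.2 then (PresentedGroup.of p.1 : ArtinGroup M) else
        (PresentedGroup.of p.1 : ArtinGroup M)⁻¹) * fval M w := rfl
      rw [e, lval_cons', map_mul, ih]
      congr 1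
      have hg : ofArt M (g M p.1) = PresentedGroup.of p.1 := by
        unfold ofArt
        exact Sh.lift_gen _ _ _ _
      cases p.2
      · simp only [Bool.false_eq_true, if_false, map_inv, hg]
      · simp only [if_true, hg]
  constructor
  · intro h
    rw [← h1, h, map_one]
  · intro h
    rw [← h2, h, map_one]

theorem nval_eq (M : CoxeterMatrix (Fin n)) (w : List (ℕ × Bool)) :
    nval M w = fval M (cv n w) := by
  induction w with
  | nil => rfl
  | cons p w ih =>
    have e : nval M (p :: w) = (if h : p.1 < n then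
      (if p.2 then (PresentedGroup.of ⟨p.1, h⟩ : ArtinGroup M) else
      (PresentedGroup.of ⟨p.1, h⟩ : ArtinGroup M)⁻¹) else 1) * nval M w := rfl
    rw [e, cv_cons, cv_one, ih]
    by_cases h : p.1 < n
    · rw [dif_pos h, dif_pos h]
      rfl
    · rw [dif_neg h, dif_neg h, one_mul]
      rfl

end conv

/-! ### Truncation -/

/-- truncated label -/
def tt (a : ℕ) : ℕ := if 100 ≤ a then 0 else a

/-- truncated matrix -/
def trL (L : List (List ℕ)) : List (List ℕ) := L.map fun r => r.map tt

theorem getD_map' {α β : Type*} (f : α → β) (l : List α) (i : ℕ) (d : α) :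
    (l.map f).getD i (f d) = f (l.getD i d) := by
  rw [List.getD_eq_getElem?_getD, List.getD_eq_getElem?_getD, List.getElem?_map]
  cases l[i]? <;> rfl

theorem trL_get (L : List (List ℕ)) (i j : ℕ) :
    ((trL L).getD i []).getD j 0 = tt ((L.getD i []).getD j 0) := by
  unfold trL
  have h1 := getD_map' (fun r : List ℕ => r.map tt) L i []
  simp only [List.map_nil] at h1
  rw [h1]
  have h2 := getD_map' tt (L.getD i []) j 0
  have h3 : tt 0 = 0 := rfl
  rw [h3] at h2
  exact h2

theorem mat_tr (n : ℕ) (L : List (List ℕ)) : mat n (trL L) = tr (mat n L) := by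
  ext i j
  show (if i = j then 1 else
    if ((trL L).getD (min i.val j.val) []).getD (max i.val j.val) 0 = 1 then 0
    else ((trL L).getD (min i.val j.val) []).getD (max i.val j.val) 0) =
    (if i = j then 1 else if 100 ≤ (if i = j then 1 else
    if (L.getD (min i.val j.val) []).getD (max i.val j.val) 0 = 1 then 0
    else (L.getD (min i.val j.val) []).getD (max i.val j.val) 0) then 0 else (if i = j then 1 else
    if (L.getD (min i.val j.val) []).getD (max i.val j.val) 0 = 1 then 0
    else (L.getD (min i.val j.val) []).getD (max i.val j.val) 0))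
  rw [trL_get]
  by_cases h : i = j
  · rw [if_pos h, if_pos h]
  · simp only [if_neg h]
    generalize (L.getD (min i.val j.val) []).getD (max i.val j.val) 0 = a
    unfold tt
    by_cases h1 : 100 ≤ a
    · have : a ≠ 1 := by omega
      simp [h1, this]
    · by_cases h2 : a = 1
      · simp [h2]
      · simp [h1, h2]

theorem tr_lt {B : Type*} [DecidableEq B] (M : CoxeterMatrix B) (i j : B) : tr M i j < 100 := by
  show (if i = j then 1 else if 100 ≤ M i j then 0 else M i j) < 100
  split_ifs with h1 h2
  · norm_num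
  · norm_num
  · omega

/-- sum of the entries -/
def sm (r : List ℕ) : ℕ := r.foldr (fun b s => b + s) 0

/-- sum of the entries -/
def SM (L : List (List ℕ)) : ℕ := L.foldr (fun b s => sm b + s) 0

theorem le_sm (r : List ℕ) : ∀ j, r.getD j 0 ≤ sm r := by
  induction r with
  | nil => intro j; simp
  | cons a r ih =>
    intro j
    have e : sm (a :: r) = a + sm r := rfl
    rw [e]
    cases j with
    | zero => simp
    | succ j =>
      have := ih j
      simp only [List.getD_cons_succ]
      omega

theorem le_SM (L : List (List ℕ)) : ∀ i, sm (L.getD i []) ≤ SM L := by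
  induction L with
  | nil => intro j; simp [sm]
  | cons a L ih =>
    intro j
    have e : SM (a :: L) = sm a + SM L := rfl
    rw [e]
    cases j with
    | zero => simp
    | succ j =>
      have := ih j
      simp only [List.getD_cons_succ]
      omega

theorem mat_le (n : ℕ) (L : List (List ℕ)) (i j : Fin n) : mat n L i j ≤ SM L + n := by
  show (if i = j then 1 else
    if (L.getD (min i.val j.val) []).getD (max i.val j.val) 0 = 1 then 0
    else (L.getD (min i.val j.val) []).getD (max i.val j.val) 0) ≤ _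
  have hn := i.2
  split_ifs
  · omega
  · omega
  · have := (le_sm (L.getD (min i.val j.val) []) (max i.val j.val)).trans (le_SM L _)
    omega

theorem le_ps (N : ℕ) : N ≤ ps N := by
  unfold ps
  have h : ∀ k, N ≤ (fun x => x + ph x * (2 * ph x + 2 * x))^[k] N := by
    intro k
    induction k with
    | zero => exact le_rfl
    | succ k ih =>
      rw [Function.iterate_succ_apply']
      exact ih.trans (Nat.le_add_right _ _)
  exact h _

/-! ### Enumeration and the procedure -/

section prim

variable {β : Type} [Primcodable β]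

theorem pr_inw : Primrec (inw : List (β × Bool) → List (β × Bool)) := by
  unfold inw
  refine Primrec.list_reverse.comp (Primrec.list_map Primrec.id ?_)
  exact Primrec.pair (Primrec.fst.comp Primrec.snd)
    (Primrec.not.comp (Primrec.snd.comp Primrec.snd))

omit [Primcodable β] in
theorem aw_eq (m : ℕ) : ∀ i j : β, aw m i j =
    (List.range m).map fun t => (bif t.bodd then j else i, true) := by
  induction m with
  | zero => intro i j; rfl
  | succ m ih =>
    intro i j
    rw [aw, ih j i, List.range_succ_eq_map, List.map_cons, List.map_map]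
    congr 1
    apply List.map_congr_left
    intro t _
    simp only [Function.comp_apply, Nat.bodd_succ]
    cases t.bodd <;> rfl

theorem pr_aw : Primrec (fun x : ℕ × β × β => aw x.1 x.2.1 x.2.2) := by
  have h : Primrec (fun x : ℕ × β × β => (List.range x.1).map fun t =>
      ((bif t.bodd then x.2.2 else x.2.1), true)) := by
    refine Primrec.list_map (Primrec.list_range.comp Primrec.fst) ?_
    refine Primrec.pair (Primrec.cond (Primrec.nat_bodd.comp Primrec.snd) ?_ ?_) (Primrec.const true)
    · exact Primrec.snd.comp (Primrec.snd.comp Primrec.fst)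
    · exact Primrec.fst.comp (Primrec.snd.comp Primrec.fst)
  exact h.of_eq fun x => (aw_eq _ _ _).symm

theorem pr_rw : Primrec (fun x : ℕ × β × β × Bool => rw' x.1 x.2.1 x.2.2.1 x.2.2.2) := by
  have h1 : Primrec (fun x : ℕ × β × β × Bool => aw x.1 x.2.1 x.2.2.1) :=
    pr_aw.comp (Primrec.pair Primrec.fst (Primrec.pair (Primrec.fst.comp Primrec.snd)
      (Primrec.fst.comp (Primrec.snd.comp Primrec.snd))))
  have h2 : Primrec (fun x : ℕ × β × β × Bool => aw x.1 x.2.2.1 x.2.1) :=
    pr_aw.comp (Primrec.pair Primrec.fst (Primrec.pair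
      (Primrec.fst.comp (Primrec.snd.comp Primrec.snd)) (Primrec.fst.comp Primrec.snd)))
  have h3 : Primrec (fun x : ℕ × β × β × Bool => bif x.2.2.2 then
      aw x.1 x.2.1 x.2.2.1 ++ inw (aw x.1 x.2.2.1 x.2.1) else
      aw x.1 x.2.2.1 x.2.1 ++ inw (aw x.1 x.2.1 x.2.2.1)) :=
    Primrec.cond (Primrec.snd.comp (Primrec.snd.comp Primrec.snd))
      (Primrec.list_append.comp h1 (pr_inw.comp h2)) (Primrec.list_append.comp h2 (pr_inw.comp h1))
  refine h3.of_eq fun x => ?_
  unfold rw'
  cases x.2.2.2 <;> rfl

theorem pr_exw {α : Type} [Primcodable α] (lab : α → β → β → ℕ)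
    (h : Primrec (fun x : α × β × β => lab x.1 x.2.1 x.2.2)) :
    Primrec₂ (fun (a : α) (c : List (List (β × Bool) × β × β × Bool)) => exw (lab a) c) := by
  unfold exw
  refine Primrec.list_flatMap Primrec.snd ?_
  have hu : Primrec (fun x : (α × List (List (β × Bool) × β × β × Bool)) ×
      (List (β × Bool) × β × β × Bool) => x.2.1) := Primrec.fst.comp Primrec.snd
  have hi : Primrec (fun x : (α × List (List (β × Bool) × β × β × Bool)) ×
      (List (β × Bool) × β × β × Bool) => x.2.2.1) :=
    Primrec.fst.comp (Primrec.snd.comp Primrec.snd)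
  have hj : Primrec (fun x : (α × List (List (β × Bool) × β × β × Bool)) ×
      (List (β × Bool) × β × β × Bool) => x.2.2.2.1) :=
    Primrec.fst.comp (Primrec.snd.comp (Primrec.snd.comp Primrec.snd))
  have hb : Primrec (fun x : (α × List (List (β × Bool) × β × β × Bool)) ×
      (List (β × Bool) × β × β × Bool) => x.2.2.2.2) :=
    Primrec.snd.comp (Primrec.snd.comp (Primrec.snd.comp Primrec.snd))
  have ha : Primrec (fun x : (α × List (List (β × Bool) × β × β × Bool)) ×
      (List (β × Bool) × β × β × Bool) => x.1.1) := Primrec.fst.comp Primrec.fst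
  have hl : Primrec (fun x : (α × List (List (β × Bool) × β × β × Bool)) ×
      (List (β × Bool) × β × β × Bool) => lab x.1.1 x.2.2.1 x.2.2.2.1) :=
    h.comp (Primrec.pair ha (Primrec.pair hi hj))
  have hr : Primrec (fun x : (α × List (List (β × Bool) × β × β × Bool)) ×
      (List (β × Bool) × β × β × Bool) =>
        rw' (lab x.1.1 x.2.2.1 x.2.2.2.1) x.2.2.1 x.2.2.2.1 x.2.2.2.2) :=
    pr_rw.comp (Primrec.pair hl (Primrec.pair hi (Primrec.pair hj hb)))
  exact Primrec.list_append.comp (Primrec.list_append.comp hu hr) (pr_inw.comp hu)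

/-- enumeration of the lists of conjugates -/
theorem enum (G : ℕ → List β) (hG : Primrec G) :
    ∃ E : ℕ → List (List (List (β × Bool) × β × β × Bool)), Primrec E ∧ ∀ N c, c ∈ E N ↔
      c.length ≤ N ∧ ∀ p ∈ c, (p.1.length ≤ N ∧ ∀ a ∈ p.1, a.1 ∈ G N) ∧ p.2.1 ∈ G N ∧
        p.2.2.1 ∈ G N := by
  have h1 : Primrec (fun N => (G N).flatMap fun i => [(i, true), (i, false)]) := by
    refine Primrec.list_flatMap hG ?_
    have ht : Primrec (fun x : ℕ × β => (x.2, true)) := Primrec.pair Primrec.snd (Primrec.const _)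
    have hf : Primrec (fun x : ℕ × β => (x.2, false)) := Primrec.pair Primrec.snd (Primrec.const _)
    exact Primrec.list_cons.comp ht (Primrec.list_cons.comp hf (Primrec.const []))
  obtain ⟨E1, hE1, hm1⟩ := cls (β × Bool) _ h1
  have hm1' : ∀ N l, l ∈ E1 N ↔ l.length ≤ N ∧ ∀ a ∈ l, a.1 ∈ G N := by
    intro N l
    rw [hm1]
    apply and_congr Iff.rfl
    apply forall₂_congr
    intro a _
    rw [List.mem_flatMap]
    constructor
    · rintro ⟨i, hi, ha⟩
      simp only [List.mem_cons, List.not_mem_nil, or_false] at ha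
      rcases ha with rfl | rfl <;> exact hi
    · intro ha
      refine ⟨a.1, ha, ?_⟩
      rcases a with ⟨i, b⟩
      cases b <;> simp
  have h2 : Primrec (fun N => (E1 N).flatMap fun u => (G N).flatMap fun i => (G N).flatMap fun j =>
      [(u, i, j, true), (u, i, j, false)]) := by
    refine Primrec.list_flatMap hE1 (Primrec.list_flatMap (hG.comp Primrec.fst)
      (Primrec.list_flatMap (hG.comp (Primrec.fst.comp Primrec.fst)) ?_))
    have hu : Primrec (fun x : ((ℕ × List (β × Bool)) × β) × β => x.1.1.2) :=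
      Primrec.snd.comp (Primrec.fst.comp Primrec.fst)
    have hi : Primrec (fun x : ((ℕ × List (β × Bool)) × β) × β => x.1.2) :=
      Primrec.snd.comp Primrec.fst
    have hj : Primrec (fun x : ((ℕ × List (β × Bool)) × β) × β => x.2) := Primrec.snd
    exact Primrec.list_cons.comp (Primrec.pair hu (Primrec.pair hi (Primrec.pair hj
      (Primrec.const true)))) (Primrec.list_cons.comp (Primrec.pair hu (Primrec.pair hi
      (Primrec.pair hj (Primrec.const false)))) (Primrec.const []))
  obtain ⟨E2, hE2, hm2⟩ := cls (List (β × Bool) × β × β × Bool) _ h2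
  refine ⟨E2, hE2, ?_⟩
  intro N c
  rw [hm2]
  apply and_congr Iff.rfl
  apply forall₂_congr
  intro p _
  rw [List.mem_flatMap]
  constructor
  · rintro ⟨u, hu, h⟩
    rw [List.mem_flatMap] at h
    obtain ⟨i, hi, h⟩ := h
    rw [List.mem_flatMap] at h
    obtain ⟨j, hj, h⟩ := h
    simp only [List.mem_cons, List.not_mem_nil, or_false] at h
    rcases h with rfl | rfl <;> exact ⟨(hm1' _ _).1 hu, hi, hj⟩
  · rintro ⟨hu, hi, hj⟩
    refine ⟨p.1, (hm1' _ _).2 hu, ?_⟩
    rw [List.mem_flatMap]
    refine ⟨p.2.1, hi, ?_⟩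
    rw [List.mem_flatMap]
    refine ⟨p.2.2.1, hj, ?_⟩
    rcases p with ⟨u, i, j, b⟩
    cases b <;> simp

end prim

theorem pr_tt : Primrec tt := by
  unfold tt
  exact Primrec.ite (Primrec.nat_le.comp (Primrec.const 100) Primrec.id) (Primrec.const 0) Primrec.id

theorem pr_trL : Primrec trL := by
  unfold trL
  exact Primrec.list_map Primrec.id
    (Primrec.list_map Primrec.snd (pr_tt.comp Primrec.snd))

theorem pr_sm : Primrec sm := by
  unfold sm
  exact Primrec.list_foldr (h := fun _ (p : ℕ × ℕ) => p.1 + p.2) Primrec.id (Primrec.const 0)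
    (Primrec.nat_add.comp (Primrec.fst.comp Primrec.snd) (Primrec.snd.comp Primrec.snd))

theorem pr_SM : Primrec SM := by
  unfold SM
  exact Primrec.list_foldr (h := fun _ (p : List ℕ × ℕ) => sm p.1 + p.2) Primrec.id
    (Primrec.const 0) (Primrec.nat_add.comp (pr_sm.comp (Primrec.fst.comp Primrec.snd))
      (Primrec.snd.comp Primrec.snd))

theorem pr_lb : Primrec (fun x : (ℕ × List (List ℕ) × List (ℕ × Bool)) × ℕ × ℕ =>
    lb x.1.1 x.1.2.1 x.2.1 x.2.2) := by
  have hn : Primrec (fun x : (ℕ × List (List ℕ) × List (ℕ × Bool)) × ℕ × ℕ => x.1.1) :=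
    Primrec.fst.comp Primrec.fst
  have hL : Primrec (fun x : (ℕ × List (List ℕ) × List (ℕ × Bool)) × ℕ × ℕ => x.1.2.1) :=
    Primrec.fst.comp (Primrec.snd.comp Primrec.fst)
  have hi : Primrec (fun x : (ℕ × List (List ℕ) × List (ℕ × Bool)) × ℕ × ℕ => x.2.1) :=
    Primrec.fst.comp Primrec.snd
  have hj : Primrec (fun x : (ℕ × List (List ℕ) × List (ℕ × Bool)) × ℕ × ℕ => x.2.2) :=
    Primrec.snd.comp Primrec.snd
  have he : Primrec (fun x : (ℕ × List (List ℕ) × List (ℕ × Bool)) × ℕ × ℕ =>
      (x.1.2.1.getD (min x.2.1 x.2.2) []).getD (max x.2.1 x.2.2) 0) :=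
    (Primrec.list_getD 0).comp ((Primrec.list_getD []).comp hL (Primrec.nat_min.comp hi hj))
      (Primrec.nat_max.comp hi hj)
  have h1 : Primrec (fun x : (ℕ × List (List ℕ) × List (ℕ × Bool)) × ℕ × ℕ =>
      if (x.1.2.1.getD (min x.2.1 x.2.2) []).getD (max x.2.1 x.2.2) 0 = 1 then 0
      else (x.1.2.1.getD (min x.2.1 x.2.2) []).getD (max x.2.1 x.2.2) 0) :=
    Primrec.ite (Primrec.eq.comp he (Primrec.const 1)) (Primrec.const 0) he
  have h2 : Primrec (fun x : (ℕ × List (List ℕ) × List (ℕ × Bool)) × ℕ × ℕ =>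
      if x.2.1 = x.2.2 then 1 else
      if (x.1.2.1.getD (min x.2.1 x.2.2) []).getD (max x.2.1 x.2.2) 0 = 1 then 0
      else (x.1.2.1.getD (min x.2.1 x.2.2) []).getD (max x.2.1 x.2.2) 0) :=
    Primrec.ite (Primrec.eq.comp hi hj) (Primrec.const 1) h1
  unfold lb
  exact Primrec.ite (PrimrecPred.and (Primrec.nat_lt.comp hi hn) (Primrec.nat_lt.comp hj hn)) h2
    (Primrec.const 0)

theorem cun (hBIG : S_BIG) : S_CUN := by
  rintro ⟨f0, hf0, hf⟩
  obtain ⟨E, hE, hm⟩ := enum (β := ℕ) List.range Primrec.list_range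
  let NN : ℕ × List (List ℕ) × List (ℕ × Bool) → ℕ := fun x => x.1 + (SM x.2.1 + x.2.2.length)
  have hNN : Primrec NN := Primrec.nat_add.comp Primrec.fst (Primrec.nat_add.comp
    (pr_SM.comp (Primrec.fst.comp Primrec.snd))
    (Primrec.list_length.comp (Primrec.snd.comp Primrec.snd)))
  refine ⟨fun x => (E (ps (NN x))).any fun c =>
    f0 (x.1, trL x.2.1, x.2.2 ++ exw (lb x.1 x.2.1) c), ?_, ?_⟩
  · refine cex _ _ (fun x : ℕ × List (List ℕ) × List (ℕ × Bool) => E (ps (NN x)))
      (fun x c => f0 (x.1, trL x.2.1, x.2.2 ++ exw (lb x.1 x.2.1) c)) ?_ ?_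
    · exact (hE.comp (cps.comp hNN)).to_comp
    · have h1 := pr_exw (β := ℕ) (fun x : ℕ × List (List ℕ) × List (ℕ × Bool) => lb x.1 x.2.1) pr_lb
      have h2 : Primrec₂ (fun (x : ℕ × List (List ℕ) × List (ℕ × Bool))
          (c : List (List (ℕ × Bool) × ℕ × ℕ × Bool)) =>
          (x.1, trL x.2.1, x.2.2 ++ exw (lb x.1 x.2.1) c)) := by
        refine Primrec.pair (Primrec.fst.comp Primrec.fst) (Primrec.pair
          (pr_trL.comp (Primrec.fst.comp (Primrec.snd.comp Primrec.fst)))
          (Primrec.list_append.comp (Primrec.snd.comp (Primrec.snd.comp Primrec.fst)) h1))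
      exact hf0.comp h2.to_comp
  · rintro ⟨n, L, w⟩
    have hkey : ∀ c, f0 (n, trL L, w ++ exw (lb n L) c) = true ↔
        lval (tr (mat n L)) (cv n w ++ exw (fun i j => mat n L i j) (cvc n c)) = 1 := by
      intro c
      rw [hf _ (by intro i j; show mat n (trL L) i j < 100; rw [mat_tr]; exact tr_lt _ _ _)]
      show nval (mat n (trL L)) (w ++ exw (lb n L) c) = 1 ↔ _
      rw [mat_tr, nval_eq, fval_iff, cv_append, lval_append', lval_append', lval_exw]
    have hT : Triv (n, L, w) ↔ lval (mat n L) (cv n w) = 1 := by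
      show nval (mat n L) w = 1 ↔ _
      rw [nval_eq, fval_iff]
    have hlen : (cv n w).length ≤ NN (n, L, w) := by
      have : (cv n w).length ≤ w.length := List.length_filterMap_le _ _
      show _ ≤ n + (SM L + w.length)
      omega
    have hB := hBIG n (mat n L) (cv n w) (NN (n, L, w)) (Nat.le_add_right _ _) hlen (by
      intro i j
      have := mat_le n L i j
      show _ ≤ n + (SM L + w.length)
      omega)
    rw [hT, hB, List.any_eq_true]
    have hle := le_ps (NN (n, L, w))
    have hnN : n ≤ ps (NN (n, L, w)) := (Nat.le_add_right _ _).trans hle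
    constructor
    · rintro ⟨c, hc, hf1⟩
      rw [hkey] at hf1
      have hc' := (hm _ _).1 hc
      refine ⟨cvc n c, (List.length_filterMap_le _ _).trans hc'.1, ?_, hf1⟩
      intro p hp
      obtain ⟨q, hq, hqp⟩ := List.mem_filterMap.1 hp
      by_cases h : q.2.1 < n ∧ q.2.2.1 < n
      · rw [dif_pos h] at hqp
        have e : p.1 = cv n q.1 := by
          rw [← Option.some.inj hqp]
        rw [e]
        exact (List.length_filterMap_le _ _).trans (hc'.2 q hq).1.1
      · rw [dif_neg h] at hqp
        exact absurd hqp (by simp)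
    · rintro ⟨c, hc1, hc2, hc3⟩
      refine ⟨ucc c, (hm _ _).2 ⟨?_, ?_⟩, ?_⟩
      · unfold ucc
        rwa [List.length_map]
      · intro p hp
        obtain ⟨q, hq, rfl⟩ := List.mem_map.1 hp
        refine ⟨⟨?_, ?_⟩, ?_, ?_⟩
        · show (uc q.1).length ≤ _
          unfold uc
          rw [List.length_map]
          exact hc2 q hq
        · intro a ha
          obtain ⟨b, _, rfl⟩ := List.mem_map.1 ha
          exact List.mem_range.2 (lt_of_lt_of_le b.1.2 hnN)
        · exact List.mem_range.2 (lt_of_lt_of_le q.2.1.2 hnN)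
        · exact List.mem_range.2 (lt_of_lt_of_le q.2.2.1.2 hnN)
      · rw [hkey, cvc_ucc]
        exact hc3

theorem cnu (hBIG : S_BIG) : S_CNU := by
  rintro n M ⟨hdec, hcomp⟩
  obtain ⟨E, hE, hm⟩ := enum (β := Fin n) (fun _ => List.finRange n) (Primrec.const _)
  let K : ℕ := n + ∑ i, ∑ j, M i j
  let NN : List (Fin n × Bool) → ℕ := fun w => w.length + K
  have hNN : Primrec NN := Primrec.nat_add.comp Primrec.list_length (Primrec.const K)
  let f : List (Fin n × Bool) → Bool := fun w => (E (ps (NN w))).any fun c =>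
    decide (fval (tr M) (w ++ exw (fun i j => M i j) c) = 1)
  have hf : Computable f := by
    refine cex _ _ (fun w : List (Fin n × Bool) => E (ps (NN w)))
      (fun w c => decide (fval (tr M) (w ++ exw (fun i j => M i j) c) = 1)) ?_ ?_
    · exact (hE.comp (cps.comp hNN)).to_comp
    · have hlab : Primrec (fun x : List (Fin n × Bool) × Fin n × Fin n => M x.2.1 x.2.2) :=
        (Primrec.dom_finite (fun y : Fin n × Fin n => M y.1 y.2)).comp Primrec.snd
      have h1 := pr_exw (β := Fin n) (fun _ : List (Fin n × Bool) => fun i j => M i j) hlab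
      have h2 : Primrec₂ (fun (w : List (Fin n × Bool))
          (c : List (List (Fin n × Bool) × Fin n × Fin n × Bool)) =>
          w ++ exw (fun i j => M i j) c) := Primrec.list_append.comp Primrec.fst h1
      exact hcomp.comp h2.to_comp
  have hiff : ∀ w, f w = true ↔ fval M w = 1 := by
    intro w
    have hB := hBIG n M w (NN w) (by
      show n ≤ w.length + (n + ∑ i, ∑ j, M i j)
      omega) (Nat.le_add_right _ _) (by
      intro i j
      have h1 : M i j ≤ ∑ j, M i j :=
        Finset.single_le_sum (f := fun j => M i j) (fun _ _ => Nat.zero_le _) (Finset.mem_univ j)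
      have h2 : ∑ j, M i j ≤ ∑ i, ∑ j, M i j :=
        Finset.single_le_sum (f := fun i => ∑ j, M i j) (fun _ _ => Nat.zero_le _)
          (Finset.mem_univ i)
      show _ ≤ w.length + (n + ∑ i, ∑ j, M i j)
      omega)
    rw [fval_iff, hB]
    show (List.any _ _) = true ↔ _
    rw [List.any_eq_true]
    constructor
    · rintro ⟨c, hc, hd⟩
      have hd' := of_decide_eq_true hd
      rw [fval_iff] at hd'
      have hc' := (hm _ _).1 hc
      exact ⟨c, hc'.1, fun p hp => (hc'.2 p hp).1.1, hd'⟩
    · rintro ⟨c, hc1, hc2, hc3⟩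
      refine ⟨c, (hm _ _).2 ⟨hc1, fun p hp => ⟨⟨hc2 p hp, fun a _ => List.mem_finRange _⟩,
        List.mem_finRange _, List.mem_finRange _⟩⟩, ?_⟩
      apply decide_eq_true
      rw [fval_iff]
      exact hc3
  have hD : DecidablePred (fun w : List (Fin n × Bool) => fval M w = 1) :=
    fun w => decidable_of_iff _ (hiff w)
  refine ⟨hD, hf.of_eq fun w => ?_⟩
  rw [Bool.eq_iff_iff]
  exact (hiff w).trans (@decide_eq_true_iff _ (hD w)).symm

end Pool.Agent.L0h29.AL
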