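import Pool.Agent.L0h29.AL.DAT

/-!
# Project AL: module RET (the data with lengths)
-/

set_option autoImplicit false
set_option linter.unusedSectionVars false

namespace Pool.Agent.L0h29.AL

open Pool.Agent.K7.H20.AW Pool.Agent.K7.H87.FJ6 Pool.Agent.L0h97.AL

universe u

lemma Wl_mono {G : Type*} [Group G] {X Y : Set G} (h : X ⊆ Y) {g : G} {n : ℕ} (hg : Wl X g n) :
    Wl Y g n := by
  obtain ⟨l, h1, h2, h3⟩ := hg
  exact ⟨l, h1, fun a ha => (h2 a ha).imp (fun h' => h h') (fun h' => h h'), h3⟩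

section art

variable {B : Type u} [Fintype B] [DecidableEq B] (M : CoxeterMatrix B) (s t : B)

/-- the subgroups which commute with the generators -/
def ZZ (τ : Bool) : Subgroup (Art M) :=
  if τ then P M {y | y ∈ ({s, t}ᶜ : Set B) ∧ M y s = 2} else
    P M {y | y ∈ ({s, t}ᶜ : Set B) ∧ M y t = 2}

variable {M s t}

lemma ZZ_comm (τ : Bool) (z : Art M) (hz : z ∈ ZZ M s t τ) : Commute z (xx M s t τ) := by
  have key : ∀ b : B, (b = s ∨ b = t) → z ∈ P M {y | y ∈ ({s, t}ᶜ : Set B) ∧ M y b = 2} →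
      Commute z (g M b) := by
    intro b hb hz
    have h1 : z ∈ P M {x | x ≠ b ∧ M x b = 2} := by
      refine P_mono ?_ hz
      rintro y ⟨h2, h3⟩
      refine ⟨?_, h3⟩
      rintro rfl
      exact h2 hb
    have h4 := comm_P h1 1
    rw [zpow_one] at h4
    exact h4.symm
  cases τ
  · exact key t (Or.inr rfl) hz
  · exact key s (Or.inl rfl) hz

/-- letters of a product in the free group -/
lemma norm_of_list (L : List (Art M)) (n : ℕ) (hn : L.length ≤ n)
    (hL : ∀ a ∈ L, a ∈ g M '' ({s, t} : Set B) ∨ a⁻¹ ∈ g M '' ({s, t} : Set B)) :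
    ∃ f : FreeGroup Bool, FreeGroup.lift (xx M s t) f = L.prod ∧ f.norm ≤ n := by
  induction L generalizing n with
  | nil => exact ⟨1, by simp, by simp⟩
  | cons a L ih =>
    obtain ⟨f, hf, hfn⟩ := ih (n - 1) (by simp at hn; omega)
      (fun b hb => hL b (List.mem_cons_of_mem _ hb))
    have key : ∀ a : Art M, a ∈ g M '' ({s, t} : Set B) →
        ∃ τ : Bool, xx M s t τ = a := by
      rintro _ ⟨b, (rfl | rfl), rfl⟩
      · exact ⟨true, rfl⟩
      · exact ⟨false, rfl⟩
    have hn1 : 1 ≤ n := by simp at hn; omega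
    rcases hL a (List.mem_cons_self) with h | h
    · obtain ⟨τ, hτ⟩ := key a h
      refine ⟨FreeGroup.of τ * f, ?_, ?_⟩
      · rw [map_mul, hf, FreeGroup.lift_apply_of, hτ, List.prod_cons]
      · have h1 := FreeGroup.norm_mul_le (FreeGroup.of τ) f
        have h2 : (FreeGroup.of τ).norm = 1 := FreeGroup.norm_of τ
        omega
    · obtain ⟨τ, hτ⟩ := key a⁻¹ h
      refine ⟨(FreeGroup.of τ)⁻¹ * f, ?_, ?_⟩
      · rw [map_mul, hf, map_inv, FreeGroup.lift_apply_of, hτ, inv_inv, List.prod_cons]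
      · have h1 := FreeGroup.norm_mul_le (FreeGroup.of τ)⁻¹ f
        have h2 : ((FreeGroup.of τ)⁻¹).norm = 1 := by
          rw [FreeGroup.norm_inv_eq]; exact FreeGroup.norm_of τ
        omega

end art

theorem RET (hRED : S_RED.{u}) (hDIH : S_DIH) (hRTR : S_RTR.{u}) (hRUN : S_RUN) (hDLN : S_DLN) :
    S_RET.{u} := by
  intro B _ _ M s t hst h0 m hm
  have hinj := lift_inj (M := M) hRED hst h0
  refine ⟨{ toDat := dat hRED hDIH hst h0 m (by omega)
            X := Set.range (g M)
            XA := ?_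
            xX := ?_
            Z := ZZ M s t
            Zc := ?_
            Zx := ZZ_comm
            r1 := ?_
            r2 := ?_
            r3 := ?_
            dl := ?_
            hm' := hm }, rfl, rfl, rfl, rfl, rfl, rfl⟩
  · rintro _ ⟨b, rfl⟩
    by_cases hb : b = t
    · subst hb
      right
      show g M b ∈ P M {s}ᶜ
      exact g_mem (fun h => hst h.symm)
    · left
      show g M b ∈ P M {t}ᶜ
      exact g_mem hb
  · intro τ
    cases τ
    · exact ⟨t, rfl⟩
    · exact ⟨s, rfl⟩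
  · intro τ
    cases τ
    · exact P_mono (fun y hy => hy.1)
    · exact P_mono (fun y hy => hy.1)
  · -- r1
    obtain ⟨r, hrP, hreq, hr1, hrW, hrV, hrb⟩ := hRTR B M ({s, t}ᶜ)
    intro τ c hc c' hc' ε n h
    have key : ∀ b : B, (b = s ∨ b = t) → Wl (Set.range (g M)) (c * g M b ^ (ε : ℤ) * c') n →
        ∃ c1 ∈ P M ({s, t}ᶜ : Set B), Wl (Set.range (g M)) c1 n ∧
          c1⁻¹ * c ∈ P M {y | y ∈ ({s, t}ᶜ : Set B) ∧ M y b = 2} := by
      intro b hb h
      have hodd : Odd (ε : ℤ) := by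
        rcases Int.units_eq_one_or ε with rfl | rfl <;> decide
      have h1 := hrb b (fun h => h hb) c' hc' ε hodd
      have h2 : r (c * g M b ^ (ε : ℤ) * c') = c * r (g M b ^ (ε : ℤ) * c') := by
        rw [mul_assoc, hreq c hc]
      refine ⟨r (c * g M b ^ (ε : ℤ) * c'), hrP _,
        Wl_mono (Set.image_subset_range _ _) (hrW _ n h), ?_⟩
      rw [h2, _root_.mul_inv_rev, mul_assoc, inv_mul_cancel, mul_one]
      exact inv_mem h1
    cases τ
    · exact key t (Or.inr rfl) h
    · exact key s (Or.inl rfl) h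
  · -- r2
    obtain ⟨r, hrP, hreq, hr1, hrW, hrV, hrb⟩ :=
      hRTR B M {y | y ∈ ({s, t}ᶜ : Set B) ∧ M y t = 2}
    intro y' hy' y hy n h
    have h1 : r (y' * y) = y' * r y := hreq y' hy' y
    refine ⟨r (y' * y), hrP _, Wl_mono (Set.image_subset_range _ _) (hrW _ n h), ?_⟩
    rw [h1, _root_.mul_inv_rev, mul_assoc, inv_mul_cancel, mul_one]
    exact inv_mem (P_mono Set.inter_subset_right (hrV _ y hy))
  · -- r3
    obtain ⟨r, hrP, hreq, hr1, hrW, hrV, hrb⟩ := hRTR B M {s, t}
    intro l hl c hc n h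
    have hev : ev (xx M s t) l ∈ P M ({s, t} : Set B) := by
      rw [ev]
      apply Subgroup.list_prod_mem
      intro y hy
      obtain ⟨a, -, rfl⟩ := List.mem_map.1 hy
      apply zpow_mem
      cases a.1
      · exact g_mem (Or.inr rfl)
      · exact g_mem (Or.inl rfl)
    have h1 : r c = 1 := by
      have h2 := hrV _ c hc
      rw [Set.inter_compl_self] at h2
      exact P_empty h2
    have h2 : r (ev (xx M s t) l * c) = ev (xx M s t) l := by
      rw [hreq _ hev, h1, mul_one]
    have h3 := hrW _ n h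
    have h4 : Wl (g M '' ({s, t} : Set B)) (ev (xx M s t) l) n := by
      rw [← h2]; exact h3
    obtain ⟨L, hLn, hL, hLp⟩ := h4
    obtain ⟨f, hf, hfn⟩ := norm_of_list L n hLn hL
    have h5 : f = ev FreeGroup.of l := by
      apply hinj
      rw [hf, hLp, lift_ev]
    obtain ⟨w, hw1, hw2, hw3, -⟩ := hRUN l hl
    have h6 : f.norm = lt l := by
      rw [h5, ← hw2, ← hw3, FreeGroup.norm, FreeGroup.toWord_mk, hw1.reduce_eq]
    omega
  · -- dl
    intro l l' hl hl' hup h
    refine hDLN m (by omega) l l' hl hl' hup ?_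
    obtain ⟨f, hf, he⟩ := h
    have h1 : f = (ev FreeGroup.of l)⁻¹ * ev FreeGroup.of l' := by
      apply hinj
      rw [he, map_mul, map_inv, lift_ev, lift_ev]
      rfl
    rw [← h1]
    exact hf

end Pool.Agent.L0h29.AL
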