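import Pool.Agent.L0h29.AL.Asm
import Pool.Agent.L0h29.AL.RET
import Pool.Agent.L0h29.AL.CUN
import Pool.Agent.L0h19.AL.Cmb
import Pool.Agent.L0h19.AL.Itr
import Pool.Agent.L0h55.AL.Big
import Pool.Agent.L0h60.AL.Loc
import Pool.Agent.L0h72.AL.RUN
import Pool.Agent.L0h72.AL.DAR
import Pool.Agent.L0h97.AL.STP
import Pool.Agent.L0h97.AL.RTR

/-!
# Project AL, part 2: assembly
-/

set_option autoImplicit false

namespace Pool.Agent.L0h29.AL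

open Pool.Agent.K7.H20.AW

universe u

theorem a_RET : S_RET.{u} := RET Pool.Agent.L0h68.AL.red Pool.Agent.L0h72.AL.DIH
  Pool.Agent.L0h97.AL.t_RTR Pool.Agent.L0h72.AL.RUN
  (Pool.Agent.L0h72.AL.DLN Pool.Agent.L0h72.AL.IMG Pool.Agent.L0h72.AL.RUN)

theorem a_PRE : S_PRE.{u} :=
  Pool.Agent.L0h60.AL.pre Pool.Agent.L0h97.AL.t_CRS Pool.Agent.L0h97.AL.t_SUB

theorem a_STP : S_STP.{u} := Pool.Agent.L0h97.AL.t_STP a_FAM a_CVX Pool.Agent.L0h38.AL.eqv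
  (Pool.Agent.L0h60.AL.uni Pool.Agent.L0h97.AL.t_RIG) (Pool.Agent.L0h60.AL.loc a_PRE) a_PRE

theorem a_ITR : S_ITR.{u} := Pool.Agent.L0h19.AL.itr a_STP Pool.Agent.L0h97.AL.t_TRE a_PRE
  Pool.Agent.L0h97.AL.t_SUB

theorem a_CMB : S_CMB.{u} := Pool.Agent.L0h19.AL.cmb a_RET a_ITR Pool.Agent.L0h38.AL.ker
  Pool.Agent.L0h72.AL.DAR Pool.Agent.L0h97.AL.t_FRE

theorem a_BIG : S_BIG := Pool.Agent.L0h55.AL.BIG a_CMB

theorem a_CUN : S_CUN := cun a_BIG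

theorem a_CNU : S_CNU := cnu a_BIG

end Pool.Agent.L0h29.AL
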