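import Pool.Agent.L0h29.AL.ArtDefs2

/-!
# Project AL2, parts CEX, CLS, CPS: bounded search, enumeration of lists, the bound
-/

set_option autoImplicit false

namespace Pool.Agent.L0h29.AL

/-- recursive form of `any` by index -/
def anyTo {β : Type} (l : List β) (q : β → Bool) : ℕ → Bool
  | 0 => false
  | (k + 1) => anyTo l q k || (match l[k]? with
    | none => false
    | some b => q b)

theorem anyTo_eq {β : Type} (l : List β) (q : β → Bool) : ∀ k, anyTo l q k = true ↔
    ∃ i < k, ∃ b, l[i]? = some b ∧ q b = true
  | 0 => by simp [anyTo]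
  | (k + 1) => by
    rw [anyTo, Bool.or_eq_true, anyTo_eq l q k]
    constructor
    · rintro (⟨i, hi, b, hb⟩ | h)
      · exact ⟨i, Nat.lt_succ_of_lt hi, b, hb⟩
      · cases hk : l[k]? with
        | none => rw [hk] at h; simp at h
        | some b => rw [hk] at h; exact ⟨k, Nat.lt_succ_self k, b, hk, h⟩
    · rintro ⟨i, hi, b, hb, hq⟩
      rcases Nat.lt_succ_iff_lt_or_eq.1 hi with h | h
      · exact Or.inl ⟨i, h, b, hb, hq⟩
      · subst h
        right
        rw [hb]
        exact hq

theorem any_eq_anyTo {β : Type} (l : List β) (q : β → Bool) : l.any q = anyTo l q l.length := by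
  rw [Bool.eq_iff_iff, anyTo_eq, List.any_eq_true]
  constructor
  · rintro ⟨x, hx, hq⟩
    obtain ⟨i, hi, rfl⟩ := List.mem_iff_getElem.1 hx
    exact ⟨i, hi, _, List.getElem?_eq_getElem hi, hq⟩
  · rintro ⟨i, hi, b, hb, hq⟩
    exact ⟨b, List.mem_of_getElem? hb, hq⟩

theorem anyTo_rec {β : Type} (l : List β) (q : β → Bool) (n : ℕ) : anyTo l q n =
    Nat.rec (motive := fun _ => Bool) false
      (fun k r => r || (Option.casesOn (motive := fun _ => Bool) l[k]? false q)) n := by
  induction n with
  | zero => rfl
  | succ k ih =>
    rw [anyTo, ih]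
    cases h : l[k]? <;> simp [h]

theorem cex : S_CEX := by
  intro α β _ _ e Q he hQ
  have h : (fun a => (e a).any (Q a)) = fun a => Nat.rec (motive := fun _ => Bool) false
      (fun k r => r || (Option.casesOn (motive := fun _ => Bool) (e a)[k]? false (Q a)))
        (e a).length := by
    funext a
    rw [any_eq_anyTo, anyTo_rec]
  rw [h]
  refine Computable.nat_rec (f := fun a => (e a).length) (g := fun _ => false)
    (h := fun a p => p.2 || (Option.casesOn (motive := fun _ => Bool) (e a)[p.1]? false (Q a)))
    (Computable.list_length.comp he) (Computable.const false) ?_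
  have h2 : Computable₂ (fun (a : α) (p : ℕ × Bool) =>
      (Option.casesOn (motive := fun _ => Bool) (e a)[p.1]? false (Q a))) := by
    refine Computable.option_casesOn (o := fun (x : α × (ℕ × Bool)) => (e x.1)[x.2.1]?)
      (f := fun _ => false) (g := fun x b => Q x.1 b) ?_ ?_ ?_
    · exact Computable₂.comp Computable.list_getElem? (he.comp Computable.fst)
        (Computable.fst.comp Computable.snd)
    · exact Computable.const false
    · exact hQ.comp (Computable.fst.comp Computable.fst) Computable.snd
  have h3 : Computable₂ (fun (a : α) (p : ℕ × Bool) => p.2) := Computable.snd.comp Computable.snd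
  exact (Primrec₂.to_comp Primrec.or).comp h3 h2

theorem cls : S_CLS := by
  intro β _ e he
  let E : ℕ → ℕ → List (List β) := fun N k => Nat.rec (motive := fun _ => List (List β)) [[]]
    (fun _ r => [] :: (e N).flatMap fun b => r.map fun l => b :: l) k
  refine ⟨fun N => E N N, ?_, ?_⟩
  · have hE : Primrec₂ E := by
      refine Primrec.nat_rec (f := fun _ => [[]]) (g := fun N p =>
        [] :: (e N).flatMap fun b => p.2.map fun l => b :: l) (Primrec.const _) ?_
      have h1 : Primrec (fun x : (ℕ × ℕ × List (List β)) => (e x.1).flatMap fun b =>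
          x.2.2.map fun l => b :: l) := by
        refine Primrec.list_flatMap (he.comp Primrec.fst) ?_
        refine Primrec.list_map (f := fun x : (ℕ × ℕ × List (List β)) × β => x.1.2.2)
          (g := fun x l => x.2 :: l) ?_ ?_
        · exact Primrec.snd.comp (Primrec.snd.comp Primrec.fst)
        · exact Primrec.list_cons.comp (Primrec.snd.comp Primrec.fst) Primrec.snd
      exact Primrec.list_cons.comp (Primrec.const []) h1
    exact hE.comp Primrec.id Primrec.id
  · intro N
    have key : ∀ k l, l ∈ E N k ↔ l.length ≤ k ∧ ∀ b ∈ l, b ∈ e N := by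
      intro k
      induction k with
      | zero =>
        intro l
        have hE0 : E N 0 = [[]] := rfl
        rw [hE0, List.mem_singleton]
        constructor
        · rintro rfl; simp
        · rintro ⟨h, _⟩
          exact List.length_eq_zero_iff.1 (Nat.le_zero.1 h)
      | succ k ih =>
        intro l
        have hE : E N (k + 1) = [] :: (e N).flatMap fun b => (E N k).map fun l => b :: l := rfl
        rw [hE, List.mem_cons, List.mem_flatMap]
        constructor
        · rintro (rfl | ⟨b, hb, hl⟩)
          · simp
          · obtain ⟨l', hl', rfl⟩ := List.mem_map.1 hl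
            have := (ih l').1 hl'
            refine ⟨by simp [this.1], ?_⟩
            intro c hc
            rcases List.mem_cons.1 hc with rfl | hc
            · exact hb
            · exact this.2 c hc
        · rintro ⟨h1, h2⟩
          cases l with
          | nil => exact Or.inl rfl
          | cons b l' =>
            right
            refine ⟨b, h2 b (by simp), List.mem_map.2 ⟨l', (ih l').2 ⟨?_, ?_⟩, rfl⟩⟩
            · simpa using h1
            · intro c hc
              exact h2 c (List.mem_cons_of_mem _ hc)
    exact fun l => key N l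

theorem pr_pow : Primrec₂ (fun a b : ℕ => a ^ b) := by
  have h : Primrec₂ (fun a b : ℕ => Nat.rec (motive := fun _ => ℕ) 1 (fun _ r => r * a) b) := by
    refine Primrec.nat_rec (f := fun _ => 1) (g := fun a p => p.2 * a) (Primrec.const _) ?_
    exact Primrec.nat_mul.comp (Primrec.snd.comp Primrec.snd) Primrec.fst
  refine h.of_eq ?_
  intro a b
  induction b with
  | zero => rfl
  | succ b ih =>
    rw [pow_succ, ← ih]

theorem pr_bi : Primrec₂ bi := by
  unfold bi
  have h1 : Primrec₂ (fun m _n : ℕ => 20 * (m + 1)) :=
    Primrec.nat_mul.comp (Primrec.const 20) (Primrec.succ.comp Primrec.fst)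
  have h2 : Primrec₂ (fun _m n : ℕ => n + 1) := Primrec.succ.comp Primrec.snd
  exact Primrec.nat_mul.comp (pr_pow.comp h1 h2) h2

theorem pr_bd : Primrec₂ bd := by
  unfold bd
  have h1 : Primrec₂ (fun m _n : ℕ => m + 2) := Primrec.nat_add.comp Primrec.fst (Primrec.const 2)
  have h2 : Primrec₂ (fun _m n : ℕ => n + 2) := Primrec.nat_add.comp Primrec.snd (Primrec.const 2)
  exact Primrec.nat_mul.comp h1 (pr_pow.comp h2 (Primrec.const 3))

theorem pr_ph : Primrec ph := by
  unfold ph
  have hb : Primrec (fun N => bi N N) := pr_bi.comp Primrec.id Primrec.id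
  exact Primrec.nat_add.comp (Primrec.nat_mul.comp Primrec.succ (pr_bd.comp Primrec.id hb)) hb

theorem cps : S_CPS := by
  unfold S_CPS ps
  have hstep : Primrec (fun x => x + ph x * (2 * ph x + 2 * x)) := by
    have h2 : Primrec (fun x : ℕ => 2 * ph x + 2 * x) :=
      Primrec.nat_add.comp (Primrec.nat_mul.comp (Primrec.const 2) pr_ph)
        (Primrec.nat_mul.comp (Primrec.const 2) Primrec.id)
    exact Primrec.nat_add.comp Primrec.id (Primrec.nat_mul.comp pr_ph h2)
  refine Primrec.nat_iterate (f := fun N => N * N) (g := fun N => N)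
    (h := fun _ x => x + ph x * (2 * ph x + 2 * x)) ?_ ?_ ?_
  · exact Primrec.nat_mul.comp Primrec.id Primrec.id
  · exact Primrec.id
  · exact hstep.comp Primrec.snd

end Pool.Agent.L0h29.AL
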