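import Pool.Agent.L0h29.AL.Asm
import Pool.Agent.L0h29.AL.RET
import Pool.Agent.L0h29.AL.CEX
import Pool.Agent.L0h19.AL.Cmb
import Pool.Agent.L0h19.AL.Itr
import Pool.Agent.L0h55.AL.Big
import Pool.Agent.L0h60.AL.Loc
import Pool.Agent.L0h72.AL.RUN
import Pool.Agent.L0h72.AL.DAR
import Pool.Agent.L0h97.AL.STP
import Pool.Agent.L0h97.AL.RTR
import Pool.Agent.L0h30.AL3.GPA
import Pool.Agent.L0h30.AL3.CLX
import Pool.Agent.L0h72.AL.REL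
import Pool.Agent.L0h72.AL.NUR
import Pool.Agent.L0h26.AL4.T_MAT
import Pool.Agent.L0h26.AL4.T_RCN
import Pool.Agent.L0h37.AL.EMB
import Pool.Agent.L0h37.AL.MEE
import Pool.Agent.L0h37.AL.FRC
import Pool.Agent.L0h48.AL.ARE
import Pool.Agent.L0h48.AL.DEL
import Pool.Agent.L0h61.AL.LCN
import Pool.Agent.L0h72.AL.CHN
import Pool.Agent.L0h6.AL.Spu
import Pool.Agent.L0h6.AL.Ttc
import Pool.Agent.L0h6.AL.Gdx
import Pool.Agent.L0h65.AL.Fcb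
import Pool.Agent.L0h65.AL.Aco
import Pool.Agent.L0h68.AL.Gdc
import Pool.Agent.L0h68.AL.Fcu

/-!
# Project AL, parts 2 to 5: assembly
-/

set_option autoImplicit false

namespace Pool.Agent.L0h29.AL

open Pool.Agent.K7.H20.AW

universe u

theorem b_RET : S_RET.{u} := RET Pool.Agent.L0h68.AL.red Pool.Agent.L0h72.AL.DIH
  Pool.Agent.L0h97.AL.t_RTR Pool.Agent.L0h72.AL.RUN
  (Pool.Agent.L0h72.AL.DLN Pool.Agent.L0h72.AL.IMG Pool.Agent.L0h72.AL.RUN)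

theorem b_PRE : S_PRE.{u} :=
  Pool.Agent.L0h60.AL.pre Pool.Agent.L0h97.AL.t_CRS Pool.Agent.L0h97.AL.t_SUB

theorem b_STP : S_STP.{u} := Pool.Agent.L0h97.AL.t_STP a_FAM a_CVX Pool.Agent.L0h38.AL.eqv
  (Pool.Agent.L0h60.AL.uni Pool.Agent.L0h97.AL.t_RIG) (Pool.Agent.L0h60.AL.loc b_PRE) b_PRE

theorem b_ITR : S_ITR.{u} := Pool.Agent.L0h19.AL.itr b_STP Pool.Agent.L0h97.AL.t_TRE b_PRE
  Pool.Agent.L0h97.AL.t_SUB

theorem b_CMB : S_CMB.{u} := Pool.Agent.L0h19.AL.cmb b_RET b_ITR Pool.Agent.L0h38.AL.ker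
  Pool.Agent.L0h72.AL.DAR Pool.Agent.L0h97.AL.t_FRE

theorem b_BIG : S_BIG := Pool.Agent.L0h55.AL.BIG b_CMB

theorem b_REL : S_REL := Pool.Agent.L0h72.AL.REL.t_REL b_BIG Pool.Agent.L0h30.AL3.t_GPA
  Pool.Agent.L0h30.AL3.t_CLX

theorem b_NUR : S_NUR := Pool.Agent.L0h72.AL.NUR.t_NUR b_BIG Pool.Agent.L0h30.AL3.t_GPA
  Pool.Agent.L0h30.AL3.t_CLX

theorem b_LCN : S_LCN.{u} :=
  Pool.Agent.L0h61.AL.t_LCN Pool.Agent.L0h37.AL.MEE Pool.Agent.L0h26.AL4.mat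

theorem b_DEL : S_DEL.{u} := Pool.Agent.L0h48.AL.t_DEL Pool.Agent.L0h26.AL4.mat

theorem b_EMB : S_EMB.{u} := Pool.Agent.L0h37.AL.EMB b_LCN (Pool.Agent.L0h26.AL4.rcn b_LCN)
  Pool.Agent.L0h37.AL.FRC b_DEL

theorem b_SPU : S_SPU.{u} :=
  Pool.Agent.L0h6.AL.spu Pool.Agent.L0h48.AL.t_ARE Pool.Agent.L0h72.AL.CHN.t_CHN b_EMB

theorem b_FCB : S_FCB := Pool.Agent.L0h65.AL.fcb b_BIG Pool.Agent.L0h30.AL3.t_GPA b_SPU b_EMB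
  Pool.Agent.L0h48.AL.t_ARE

theorem b_GDX : S_GDX :=
  Pool.Agent.L0h6.AL.gdx b_DEL Pool.Agent.L0h72.AL.CHN.t_CHN Pool.Agent.L0h48.AL.t_ARE

theorem b_ACO : S_ACO := Pool.Agent.L0h65.AL.aco cex

theorem b_FCU : S_FCU := Pool.Agent.L0h68.AL.fcu b_FCB b_GDX (Pool.Agent.L0h68.AL.gdc b_ACO cex cls)
  Pool.Agent.L0h6.AL.ttc b_ACO Pool.Agent.L0h48.AL.t_ARE

end Pool.Agent.L0h29.AL
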