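import Pool.Agent.K7.H20.AW.Defs

/-!
# Project AL (MP_a1ec0a_al): large labels can be erased.  Mathlib-only definitions and statements

Part 1: windmills.  Part 2: edge trees.  Part 3: amalgams.  Part 4: the free subgroup `⟨s, t⟩`.
Part 5: dihedral words.  Part 6: lengths, reduction steps.
-/

set_option autoImplicit false

namespace Pool.Agent.L0h29.AL

open Pool.Agent.K7.H20.AW

/-! ## 1. windmills -/

/-- A family of pseudometrics `D i` with groups `H i` of large displacement and small mutual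
projections. -/
structure Fam (Γ V I : Type*) [Group Γ] [MulAction Γ V] [MulAction Γ I] where
  D : I → V → V → ℤ
  H : I → Subgroup Γ
  κ : ℤ
  L : ℤ
  v0 : V
  nr : V → V → Prop
  b : V → ℕ
  D_self : ∀ i p, D i p p = 0
  D_comm : ∀ i p q, D i p q = D i q p
  D_tri : ∀ i p q r, D i p r ≤ D i p q + D i q r
  D_smul : ∀ (g : Γ) i p q, D (g • i) (g • p) (g • q) = D i p q
  D_H : ∀ i, ∀ h ∈ H i, ∀ p q, D i (h • p) (h • q) = D i p q
  H_smul : ∀ (g : Γ) i h, h ∈ H i → g * h * g⁻¹ ∈ H (g • i)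
  disp : ∀ i, ∀ h ∈ H i, h ≠ 1 → ∀ p, L ≤ D i p (h • p)
  hκ : 6 ≤ κ
  hL : 11 * κ ≤ L
  nr_refl : ∀ p, nr p p
  nr_smul : ∀ (g : Γ) p q, nr p q → nr (g • p) (g • q)
  nr_D : ∀ i p q, nr p q → D i p q ≤ 3
  b0 : ∀ q, b q = 0 → q = v0
  bs : ∀ n q, b q ≤ n + 1 → ∃ p, b p ≤ n ∧ nr p q
  dich : ∀ i j, (H i = H j ∧ ∀ p q, D i p q = D j p q) ∨
    ∃ A B : Set V, (∀ p, p ∈ A ∨ p ∈ B) ∧ (∀ a ∈ A, ∀ a' ∈ A, D i a a' < κ) ∧
      (∀ b ∈ B, ∀ b' ∈ B, D j b b' < κ)

/-- WIN: the windmill theorem (Greendlinger's lemma). -/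
def S_WIN.{u, v, w} : Prop := ∀ (Γ : Type u) (V : Type v) (I : Type w) [Group Γ] [MulAction Γ V]
  [MulAction Γ I] (S : Fam Γ V I) (g : Γ), g ∈ ⨆ i, S.H i → g ≠ 1 →
  ∃ i, ∃ k ∈ S.H i, S.L - 5 * S.κ ≤ S.D i S.v0 (g • S.v0) ∧ S.D i S.v0 (k • g • S.v0) ≤ 5 * S.κ

/-! ## 2. edge trees -/

section etree

variable {E : Type*}

/-- `a` and `b` are different edges with a common vertex. `r true`, `r false`: have the same vertex
of type true, false. -/
def Adj (r : Bool → E → E → Prop) (a b : E) : Prop := a ≠ b ∧ ∃ τ, r τ a b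

/-- the path turns at `b`: the vertex common to `a` and `b` is not the vertex common to `b, c` -/
def Turn (r : Bool → E → E → Prop) (a b c : E) : Prop := ∀ τ, r τ a b → ¬ r τ b c

/-- geodesic edge paths -/
def Alt (r : Bool → E → E → Prop) : List E → Prop
  | a :: b :: c :: l => Adj r a b ∧ Turn r a b c ∧ Alt r (b :: c :: l)
  | [a, b] => Adj r a b
  | _ => True

/-- `l` is the geodesic edge path from `p` to `q` -/
def Pth (r : Bool → E → E → Prop) (p q : E) (l : List E) : Prop :=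
  Alt r l ∧ l.head? = some p ∧ l.getLast? = some q

/-- A bipartite tree, described by its edges and by the relations `having the same end of type τ`. -/
structure ETree (E : Type*) where
  r : Bool → E → E → Prop
  req : ∀ τ, Equivalence (r τ)
  meet : ∀ a b, r true a b → r false a b → a = b
  conn : ∀ p q, ∃ l, Pth r p q l
  noloop : ∀ p l, Pth r p p l → l = [p]

/-- number of consecutive triples of `l` which satisfy `U` -/
noncomputable def cnt (U : E → E → E → Prop) : List E → ℕ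
  | a :: b :: c :: l => (by classical exact if U a b c then 1 else 0) + cnt U (b :: c :: l)
  | _ => 0

end etree

/-- UNQ: geodesic edge paths are unique. -/
def S_UNQ.{u} : Prop := ∀ (E : Type u) (T : ETree E) (p q : E) (l l' : List E),
  Pth T.r p q l → Pth T.r p q l' → l = l'

/-- TRI: counting functions satisfy the triangle inequality up to 2. -/
def S_TRI.{u} : Prop := ∀ (E : Type u) (T : ETree E) (U : E → E → E → Prop) (p q r : E)
  (l l' l'' : List E), Pth T.r p q l → Pth T.r q r l' → Pth T.r p r l'' →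
  cnt U l'' ≤ cnt U l + cnt U l' + 2

/-- CRS: a chain of edges passes through every edge of the geodesic. -/
def S_CRS.{u} : Prop := ∀ (E : Type u) (T : ETree E) (p q : E) (c l : List E),
  c.IsChain (fun a b => a = b ∨ ∃ τ, T.r τ a b) → c.head? = some p → c.getLast? = some q →
  Pth T.r p q l → ∀ e ∈ l, e ∈ c

/-- SUB: reversal, subpaths and counting (easy list facts). -/
def S_SUB.{u} : Prop := ∀ (E : Type u) (T : ETree E) (U : E → E → E → Prop),
  (∀ p q l, Pth T.r p q l → Pth T.r q p l.reverse) ∧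
  ((∀ a b c, U a b c → U c b a) → ∀ l, cnt U l.reverse = cnt U l) ∧
  (∀ (p q y : E) (u v : List E), Pth T.r p q (u ++ y :: v) →
    Pth T.r p y (u ++ [y]) ∧ Pth T.r y q (y :: v)) ∧
  (∀ (u : List E) (y : E) (v : List E),
    cnt U (u ++ [y]) + cnt U (y :: v) ≤ cnt U (u ++ y :: v)) ∧
  (∀ l : List E, cnt U l ≤ l.length - 2) ∧
  (∀ l : List E, cnt U l ≠ 0 → ∃ (u : List E) (a b c : E) (v : List E),
    l = u ++ a :: b :: c :: v ∧ U a b c)

/-! ## 3. amalgams -/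

/-- `G` is the amalgam of its subgroups `A true`, `A false` over `C`. -/
structure Amal (G : Type*) [Group G] where
  A : Bool → Subgroup G
  C : Subgroup G
  le : ∀ τ, C ≤ A τ
  red : ∀ l : List (Bool × G), l ≠ [] → (∀ x ∈ l, x.2 ∈ A x.1 ∧ x.2 ∉ C) →
    l.IsChain (fun x y => x.1 ≠ y.1) → (l.map Prod.snd).prod ∉ C
  gen : A true ⊔ A false = ⊤

/-- the relation `the same coset of A τ` on the cosets of `C` -/
def Amal.rel {G : Type*} [Group G] (S : Amal G) (τ : Bool) (e e' : G ⧸ S.C) : Prop :=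
  Subgroup.quotientMapOfLE (S.le τ) e = Subgroup.quotientMapOfLE (S.le τ) e'

/-- TRE: the Bass–Serre tree of an amalgam. -/
def S_TRE.{u} : Prop := ∀ (G : Type u) [Group G] (S : Amal G), ∃ T : ETree (G ⧸ S.C), T.r = S.rel

/-! ## 4. the subgroup generated by `s` and `t` -/

/-- number of pairs of consecutive syllables with exponents `1` or `-1` -/
def up : List (Bool × ℤ) → ℕ
  | a :: b :: l => (if |a.2| = 1 ∧ |b.2| = 1 then 1 else 0) + up (b :: l)
  | _ => 0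

/-- reduced words in syllables -/
def Syl (l : List (Bool × ℤ)) : Prop := l.IsChain (fun a b => a.1 ≠ b.1) ∧ ∀ a ∈ l, a.2 ≠ 0

/-- the element represented by a word in syllables -/
def ev {G : Type*} [Group G] (x : Bool → G) (l : List (Bool × ℤ)) : G :=
  (l.map fun a => x a.1 ^ a.2).prod

/-- the data of the windmill: an amalgam, two elements `x true ∈ A true`, `x false ∈ A false` and a
subgroup `K` of the group generated by them. -/
structure Dat (G : Type*) [Group G] extends Amal G where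
  x : Bool → G
  hx : ∀ τ, x τ ∈ A τ
  pw : ∀ τ (k : ℤ), x τ ^ k ∈ C → k = 0
  two : ∀ τ, ∀ c ∈ C, ∀ j k : ℤ, Odd k → x τ ^ j * c * x τ ^ k ∈ C → Commute c (x τ)
  K : Subgroup G
  hK : K ≤ Subgroup.closure (Set.range x)
  nK : ∀ f ∈ Subgroup.closure (Set.range x), ∀ k ∈ K, f * k * f⁻¹ ∈ K
  m : ℕ
  hm : 82 ≤ m
  long : ∀ l, Syl l → l ≠ [] → ev x l ∈ K → m ≤ up l + 3

namespace Dat

variable {G : Type*} [Group G] (S : Dat G)

/-- the units of the translate `h T₀`: triples `h f (x τ ^ ε, 1, x (!τ) ^ ε')` -/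
def U (h : G) (a b c : G ⧸ S.C) : Prop :=
  ∃ f ∈ Subgroup.closure (Set.range S.x), ∃ (τ : Bool) (ε ε' : ℤˣ),
    a = ((h * f * S.x τ ^ (ε : ℤ) : G) : G ⧸ S.C) ∧ b = ((h * f : G) : G ⧸ S.C) ∧
      c = ((h * f * S.x (!τ) ^ (ε' : ℤ) : G) : G ⧸ S.C)

/-- all units -/
def UU (a b c : G ⧸ S.C) : Prop := ∃ h, S.U h a b c

/-- the edges of `h T₀` -/
def Ed (h : G) (e : G ⧸ S.C) : Prop :=
  ∃ f ∈ Subgroup.closure (Set.range S.x), e = ((h * f : G) : G ⧸ S.C)

end Dat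

/-- FRE: the group generated by `x true`, `x false` is free and meets `C`, `A τ` in the obvious
subgroups. -/
def S_FRE.{u} : Prop := ∀ (G : Type u) [Group G] (S : Dat G),
  (∀ l, Syl l → ev S.x l ∈ S.C → l = []) ∧
  (∀ l l', Syl l → Syl l' → ev S.x l = ev S.x l' → l = l') ∧
  (∀ f ∈ Subgroup.closure (Set.range S.x), ∃ l, Syl l ∧ ev S.x l = f) ∧
  (∀ f ∈ Subgroup.closure (Set.range S.x), f ∈ S.C → f = 1) ∧
  (∀ τ, ∀ f ∈ Subgroup.closure (Set.range S.x), f ∈ S.A τ → ∃ k : ℤ, f = S.x τ ^ k)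

/-- RIG: a translate of `T₀` which contains a unit of `T₀` is equal to `T₀`. -/
def S_RIG.{u} : Prop := ∀ (G : Type u) [Group G] (S : Dat G) (h : G) (a b c : G ⧸ S.C),
  S.U 1 a b c → S.Ed h a → S.Ed h b → S.Ed h c →
  ∃ z ∈ S.C, (∀ τ, Commute z (S.x τ)) ∧ z⁻¹ * h ∈ Subgroup.closure (Set.range S.x)

/-- CVX: the geodesics between edges of `h T₀`. -/
def S_CVX.{u} : Prop := ∀ (G : Type u) [Group G] (S : Dat G) (T : ETree (G ⧸ S.C)), T.r = S.rel →
  ∀ (h : G), ∀ f ∈ Subgroup.closure (Set.range S.x), ∀ (l : List (Bool × ℤ)), Syl l →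
  ∀ pth, Pth T.r ((h * f : G) : G ⧸ S.C) ((h * f * ev S.x l : G) : G ⧸ S.C) pth →
  (∀ e ∈ pth, S.Ed h e) ∧ cnt (S.U h) pth = up l

/-- EQV: equivariance. -/
def S_EQV.{u} : Prop := ∀ (G : Type u) [Group G] (S : Dat G) (T : ETree (G ⧸ S.C)), T.r = S.rel →
  ∀ g : G, (∀ p q l, Pth T.r p q l → Pth T.r (g • p) (g • q) (l.map (g • ·))) ∧
    (∀ h l, cnt (S.U (g * h)) (l.map (g • ·)) = cnt (S.U h) l) ∧
    (∀ l, cnt S.UU (l.map (g • ·)) = cnt S.UU l) ∧
    (∀ h a b c, S.U h a b c → S.U h c b a) ∧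
    (∀ h a b c, S.U h a b c → S.Ed h a ∧ S.Ed h b ∧ S.Ed h c) ∧
    (∀ (z f h : G), z ∈ S.C → (∀ τ, Commute z (S.x τ)) → f ∈ Subgroup.closure (Set.range S.x) →
      S.U (h * (z * f)) = S.U h ∧ ∀ k, k ∈ S.K ↔ (z * f) * k * (z * f)⁻¹ ∈ S.K)

/-- DSP: displacement. -/
def S_DSP.{u} : Prop := ∀ (G : Type u) [Group G] (S : Dat G) (T : ETree (G ⧸ S.C)), T.r = S.rel →
  ∀ (h p : G), ∀ k ∈ S.K, k ≠ 1 → ∀ l,
  Pth T.r (p : G ⧸ S.C) ((h * k * h⁻¹ * p : G) : G ⧸ S.C) l → S.m ≤ cnt (S.U h) l + 7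

/-- DCH: different translates of `T₀` have small projections to each other. -/
def S_DCH.{u} : Prop := ∀ (G : Type u) [Group G] (S : Dat G) (T : ETree (G ⧸ S.C)), T.r = S.rel →
  ∀ i j : G, (∃ z ∈ S.C, (∀ τ, Commute z (S.x τ)) ∧
      z⁻¹ * (i⁻¹ * j) ∈ Subgroup.closure (Set.range S.x)) ∨
    ∃ A B : Set G, (∀ p, p ∈ A ∨ p ∈ B) ∧
      (∀ a ∈ A, ∀ a' ∈ A, ∀ l, Pth T.r (a : G ⧸ S.C) (a' : G ⧸ S.C) l → cnt (S.U i) l ≤ 4) ∧
      (∀ b ∈ B, ∀ b' ∈ B, ∀ l, Pth T.r (b : G ⧸ S.C) (b' : G ⧸ S.C) l → cnt (S.U j) l ≤ 4)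

/-- FAM: the conclusion of the windmill theorem for the translates of `T₀`. -/
def S_FAM.{u} : Prop := ∀ (G : Type u) [Group G] (S : Dat G) (T : ETree (G ⧸ S.C)), T.r = S.rel →
  ∀ g ∈ Subgroup.normalClosure (S.K : Set G), g ≠ 1 → ∃ h : G, ∃ k ∈ S.K,
    (∀ l, Pth T.r ((1 : G) : G ⧸ S.C) (g : G ⧸ S.C) l → S.m ≤ cnt (S.U h) l + 42) ∧
    (∀ l, Pth T.r ((1 : G) : G ⧸ S.C) ((h * k * h⁻¹ * g : G) : G ⧸ S.C) l → cnt (S.U h) l ≤ 33)

/-! ## 5. dihedral words -/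

/-- the relator of the dihedral Artin group -/
def rm (m : ℕ) : FreeGroup Bool :=
  altProd m (FreeGroup.of true) (FreeGroup.of false) *
    (altProd m (FreeGroup.of false) (FreeGroup.of true))⁻¹

/-- DIH: nontrivial relations of the dihedral Artin group contain `m - 3` unit pairs. -/
def S_DIH : Prop := ∀ m : ℕ, 2 ≤ m → ∀ l, Syl l → l ≠ [] →
  ev FreeGroup.of l ∈ Subgroup.normalClosure {rm m} → m ≤ up l + 3

end Pool.Agent.L0h29.AL
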