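import Pool.Agent.L0h29.AL.Defs

/-!
# Project AL, part 2: lengths and bounds (Mathlib-like definitions and statements)
-/

set_option autoImplicit false

namespace Pool.Agent.L0h29.AL

open Pool.Agent.K7.H20.AW

/-! ## 1. dihedral words, letters -/

/-- number of letters of a word in syllables -/
def lt (l : List (Bool × ℤ)) : ℕ := (l.map fun a => a.2.natAbs).sum

/-- the alternating word of `m` letters of sign `σ` which begins with the generator `τ` -/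
def altw (σ : Bool) : ℕ → Bool → List (Bool × Bool)
  | 0, _ => []
  | (m + 1), τ => (τ, σ) :: altw σ m (!τ)

/-- IMG: a quotient of the dihedral Artin group with a length function that sees words without long
alternating runs (`Q = ℤ/2 * ℤ/m`, `s ↦ ρ ν`, `t ↦ ν ρ`, `lam` = number of `ρ`-syllables). -/
def S_IMG : Prop := ∀ m : ℕ, 2 ≤ m → ∃ (Q : Type) (_ : Group Q) (ψ : FreeGroup Bool →* Q)
  (lam : Q → ℕ), ψ (rm m) = 1 ∧ lam 1 = 0 ∧ (∀ a b, lam (a * b) ≤ lam a + lam b) ∧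
  (∀ τ, lam (ψ (FreeGroup.of τ)) ≤ 1 ∧ lam (ψ (FreeGroup.of τ)⁻¹) ≤ 1) ∧
  ∀ w : List (Bool × Bool), FreeGroup.IsReduced w →
    (∀ (u v : List (Bool × Bool)) (σ τ : Bool), w ≠ u ++ altw σ m τ ++ v) →
    w.length ≤ m * lam (ψ (FreeGroup.mk w))

/-- RUN: words in syllables and words in letters: a letter word with a long run has many units. -/
def S_RUN : Prop := ∀ l : List (Bool × ℤ), Syl l → ∃ w : List (Bool × Bool), FreeGroup.IsReduced w ∧
  FreeGroup.mk w = ev FreeGroup.of l ∧ w.length = lt l ∧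
  ∀ (m : ℕ) (u v : List (Bool × Bool)) (σ τ : Bool), 2 ≤ m → w = u ++ altw σ m τ ++ v → m ≤ up l + 3

/-- DLN: words with few units are short among the words equal to them in the dihedral group. -/
def S_DLN : Prop := ∀ m : ℕ, 2 ≤ m → ∀ l l', Syl l → Syl l' → up l' + 3 < m →
  (ev FreeGroup.of l)⁻¹ * ev FreeGroup.of l' ∈ Subgroup.normalClosure {rm m} → lt l' ≤ m * lt l

/-- an explicit bound -/
def bd (m n : ℕ) : ℕ := (m + 2) * (n + 2) ^ 3

/-- the product of conjugates of the relator `r ^ ±1` -/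
def cj {G : Type*} [Group G] (r : G) (c : List (G × Bool)) : G :=
  (c.map fun p => p.1 * (if p.2 then r else r⁻¹) * p.1⁻¹).prod

/-- DAR: relations of the dihedral Artin group have controlled area. -/
def S_DAR : Prop := ∀ m n : ℕ, 2 ≤ m → ∀ w : List (Bool × Bool), w.length ≤ n →
  FreeGroup.mk w ∈ Subgroup.normalClosure {rm m} →
  ∃ c : List (List (Bool × Bool) × Bool), c.length ≤ bd m n ∧ (∀ p ∈ c, p.1.length ≤ bd m n) ∧
    FreeGroup.mk w = cj (rm m) (c.map fun p => (FreeGroup.mk p.1, p.2))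

/-! ## 2. word length and retractions -/

/-- `g` is a product of at most `n` elements of `X` and their inverses -/
def Wl {G : Type*} [Group G] (X : Set G) (g : G) (n : ℕ) : Prop :=
  ∃ l : List G, l.length ≤ n ∧ (∀ a ∈ l, a ∈ X ∨ a⁻¹ ∈ X) ∧ l.prod = g

/-- the data together with generators and the consequences of the set retractions -/
structure Ret (G : Type*) [Group G] extends Dat G where
  X : Set G
  XA : ∀ a ∈ X, a ∈ A true ∨ a ∈ A false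
  xX : ∀ τ, x τ ∈ X
  Z : Bool → Subgroup G
  Zc : ∀ τ, Z τ ≤ C
  Zx : ∀ τ, ∀ z ∈ Z τ, Commute z (x τ)
  r1 : ∀ τ, ∀ c ∈ C, ∀ c' ∈ C, ∀ (ε : ℤˣ) (n : ℕ), Wl X (c * x τ ^ (ε : ℤ) * c') n →
    ∃ c1 ∈ C, Wl X c1 n ∧ c1⁻¹ * c ∈ Z τ
  r2 : ∀ y' ∈ Z false, ∀ y ∈ Z true, ∀ n : ℕ, Wl X (y' * y) n →
    ∃ y0 ∈ Z false, Wl X y0 n ∧ y0⁻¹ * y' ∈ Z true
  r3 : ∀ l, Syl l → ∀ c ∈ C, ∀ n : ℕ, Wl X (ev x l * c) n → lt l ≤ n
  dl : ∀ l l', Syl l → Syl l' → up l' + 3 < m → (ev x l)⁻¹ * ev x l' ∈ K → lt l' ≤ m * lt l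
  hm' : 100 ≤ m

/-- UNI: all units in a translate of `T₀` belong to it. -/
def S_UNI.{u} : Prop := ∀ (G : Type u) [Group G] (S : Dat G) (h h' : G) (a b c : G ⧸ S.C),
  S.U h' a b c → S.Ed h a → S.Ed h b → S.Ed h c → S.U h a b c

/-- LOC: a unit on the geodesic of a short element belongs to a translate by a short element. -/
def S_LOC.{u} : Prop := ∀ (G : Type u) [Group G] (S : Ret G) (T : ETree (G ⧸ S.C)), T.r = S.rel →
  ∀ (g : G) (n : ℕ), Wl S.X g n → ∀ l, Pth T.r ((1 : G) : G ⧸ S.C) (g : G ⧸ S.C) l →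
  ∀ (h : G) (a b c : G ⧸ S.C), a ∈ l → b ∈ l → c ∈ l → S.U h a b c →
  ∃ u : G, Wl S.X u (4 * n) ∧ ∃ z ∈ S.C, (∀ τ, Commute z (S.x τ)) ∧
    ∃ f ∈ Subgroup.closure (Set.range S.x), h = u * (z * f)

/-- PRE: every edge of the geodesic of `g` is the coset of a prefix of a word of `g`. -/
def S_PRE.{u} : Prop := ∀ (G : Type u) [Group G] (S : Ret G) (T : ETree (G ⧸ S.C)), T.r = S.rel →
  ∀ (g : G) (n : ℕ), Wl S.X g n → ∀ l, Pth T.r ((1 : G) : G ⧸ S.C) (g : G ⧸ S.C) l →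
  l.length ≤ n + 1 ∧ ∃ q : G ⧸ S.C → G, (∀ e ∈ l, ((q e : G) : G ⧸ S.C) = e) ∧
    (∀ e ∈ l, Wl S.X (q e) n) ∧ ∀ e ∈ l, ∀ e' ∈ l, Wl S.X ((q e)⁻¹ * q e') n

/-- STP: one reduction step. -/
def S_STP.{u} : Prop := ∀ (G : Type u) [Group G] (S : Ret G) (T : ETree (G ⧸ S.C)), T.r = S.rel →
  ∀ g ∈ Subgroup.normalClosure (S.K : Set G), g ≠ 1 → ∀ (n : ℕ), Wl S.X g n →
  ∀ l, Pth T.r ((1 : G) : G ⧸ S.C) (g : G ⧸ S.C) l →
  ∃ (u : G) (k : List (Bool × ℤ)), Wl S.X u (4 * n) ∧ Syl k ∧ ev S.x k ∈ S.K ∧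
    lt k ≤ 10 * (S.m + 1) * n ∧
    ∀ l', Pth T.r ((1 : G) : G ⧸ S.C) ((u * ev S.x k * u⁻¹ * g : G) : G ⧸ S.C) l' →
      cnt S.UU l' < cnt S.UU l

/-- the length bound after the iteration -/
def bi (m n : ℕ) : ℕ := (20 * (m + 1)) ^ (n + 1) * (n + 1)

/-- ITR: relations of length `n` are products of few short conjugates of elements of `K`. -/
def S_ITR.{u} : Prop := ∀ (G : Type u) [Group G] (S : Ret G), ∀ (g : G),
  g ∈ Subgroup.normalClosure (S.K : Set G) → ∀ n : ℕ, Wl S.X g n →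
  ∃ L : List (G × List (Bool × ℤ)), L.length ≤ n ∧
    (∀ p ∈ L, Wl S.X p.1 (bi S.m n) ∧ Syl p.2 ∧ ev S.x p.2 ∈ S.K ∧ lt p.2 ≤ bi S.m n) ∧
    (L.map fun p => p.1 * ev S.x p.2 * p.1⁻¹).prod = g

end Pool.Agent.L0h29.AL
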