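import Pool.Agent.L0h29.AL.ONE

/-!
# Project AL: module MAI (words do not see large labels)
-/

set_option autoImplicit false

namespace Pool.Agent.L0h29.AL

open Pool.Agent.K7.H20.AW

universe u

variable {B : Type u} [Fintype B] [DecidableEq B]

theorem cm_ext {M N : CoxeterMatrix B} (h : ∀ i j, M i j = N i j) : M = N := by
  cases M; cases N
  congr
  ext i j
  exact h i j

theorem far_apply (M : CoxeterMatrix B) (w : List (B × ℤ)) (i j : B) : far M w i j =
    if i = j then 1 else if 2 * min (syllables i w) (syllables j w) + 82 ≤ M i j then 0 else M i j :=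
  rfl

/-- the statement for matrices between `M` and `far M w` -/
theorem step (hONE : S_ONE.{u}) (w : List (B × ℤ)) : ∀ (n : ℕ) (M : CoxeterMatrix B),
    ((Finset.univ : Finset (B × B)).filter fun p => p.1 ≠ p.2 ∧
      2 * min (syllables p.1 w) (syllables p.2 w) + 82 ≤ M p.1 p.2).card = n →
    (val M w = 1 ↔ val (far M w) w = 1) := by
  intro n
  induction n using Nat.strong_induction_on with
  | _ n ih =>
    intro M hn
    by_cases he : ∃ i j : B, i ≠ j ∧ 2 * min (syllables i w) (syllables j w) + 82 ≤ M i j
    · obtain ⟨i, j, hij, hb⟩ := he
      have h1 := hONE B M i j hij w hb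
      have h2 : far (er M i j) w = far M w := by
        apply cm_ext
        intro a b
        rw [far_apply, far_apply, er_apply]
        by_cases hab : a = b
        · rw [if_pos hab, if_pos hab]
        · rw [if_neg hab, if_neg hab, if_neg hab]
          by_cases hc : (a = i ∧ b = j) ∨ (a = j ∧ b = i)
          · rw [if_pos hc]
            have hbig : 2 * min (syllables a w) (syllables b w) + 82 ≤ M a b := by
              rcases hc with ⟨rfl, rfl⟩ | ⟨rfl, rfl⟩
              · exact hb
              · rw [M.symmetric, min_comm]; exact hb
            rw [if_pos hbig, if_neg (by omega)]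
          · rw [if_neg hc]
      rw [h1, ← h2]
      refine ih _ ?_ (er M i j) rfl
      rw [← hn]
      apply Finset.card_lt_card
      rw [Finset.ssubset_iff_of_subset]
      · refine ⟨(i, j), ?_, ?_⟩
        · rw [Finset.mem_filter]
          exact ⟨Finset.mem_univ _, hij, hb⟩
        · rw [Finset.mem_filter]
          rintro ⟨-, -, h3⟩
          have h4 : er M i j i j = 0 := er_st M i j hij
          simp only [h4] at h3
          omega
      · intro p hp
        rw [Finset.mem_filter] at hp ⊢
        refine ⟨hp.1, hp.2.1, ?_⟩
        rcases er_cases M i j p.1 p.2 with h | h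
        · rw [h] at hp; omega
        · rw [← h]; exact hp.2.2
    · have h2 : far M w = M := by
        apply cm_ext
        intro a b
        rw [far_apply]
        by_cases hab : a = b
        · rw [if_pos hab, hab]
          exact (M.diagonal b).symm
        · rw [if_neg hab, if_neg (fun h => he ⟨a, b, hab, h⟩)]
      rw [h2]

theorem MAI (hONE : S_ONE.{u}) : S_MAI.{u} := by
  intro B _ _ M w
  rw [value_iff, value_iff]
  exact step hONE w _ M rfl

end Pool.Agent.L0h29.AL
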