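import Pool.Agent.L0h29.AL.ArtDefs2

/-!
# Project AL: module ONE (one large label can be erased)
-/

set_option autoImplicit false

namespace Pool.Agent.L0h29.AL

open Pool.Agent.K7.H20.AW Pool.Agent.K7.H87.FJ6 Pool.Agent.Helper741

universe u

section

variable {B : Type u} [DecidableEq B] (M : CoxeterMatrix B) (s t : B)

theorem er_apply (i j : B) : er M s t i j =
    if i = j then 1 else if (i = s ∧ j = t) ∨ (i = t ∧ j = s) then 0 else M i j := rfl

theorem er_st (hst : s ≠ t) : er M s t s t = 0 := by
  rw [er_apply, if_neg hst, if_pos (Or.inl ⟨rfl, rfl⟩)]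

theorem er_cases (i j : B) : er M s t i j = 0 ∨ er M s t i j = M i j := by
  rw [er_apply]
  split_ifs with h1 h2
  · right
    subst h1
    exact (M.diagonal i).symm
  · left; rfl
  · right; rfl

/-- the map which restores the label -/
def erq : Art (er M s t) →* Art M :=
  Sh.lift (fun b => g M b) (fun i j => by
    rcases er_cases M s t i j with h | h
    · rw [h, alt_zero, alt_zero]
    · rw [h]; exact Sh.rel i j) (fun _ => pow_zero _)

theorem erq_g (b : B) : erq M s t (g (er M s t) b) = g M b := Sh.lift_gen _ _ _ _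

theorem erq_val (w : List (B × ℤ)) : erq M s t (val (er M s t) w) = val M w := by
  rw [val, val, map_list_prod, List.map_map]
  congr 1
  apply List.map_congr_left
  intro p _
  show erq M s t (g (er M s t) p.1 ^ p.2) = g M p.1 ^ p.2
  rw [map_zpow, erq_g]

end

theorem ONE (hDAT : S_DAT.{u}) (hTRE : S_TRE.{u}) (hFAM : S_FAM.{u}) (hKER : S_KER.{u})
    (hCNT : S_CNT.{u}) (hSUB : S_SUB.{u}) : S_ONE.{u} := by
  intro B _ _ M s t hst w hw
  constructor
  · intro h1
    by_contra hne
    have h0 : er M s t s t = 0 := er_st M s t hst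
    have hm : 82 ≤ M s t := by omega
    obtain ⟨S, hA, hC, hx, hK, hSm⟩ := hDAT B (er M s t) s t hst h0 (M s t) hm
    obtain ⟨T, hT⟩ := hTRE (Art (er M s t)) S.toAmal
    have hg := hKER B M s t hst w h1
    have hg' : val (er M s t) w ∈ Subgroup.normalClosure (S.K : Set (Art (er M s t))) := by
      rw [hK]; exact hg
    obtain ⟨h, k, hk, hb, -⟩ := hFAM (Art (er M s t)) S T hT _ hg' hne
    obtain ⟨l, hl⟩ := T.conn ((1 : Art (er M s t)) : Art (er M s t) ⧸ S.C)
      (val (er M s t) w : Art (er M s t) ⧸ S.C)
    have hb1 := hb l hl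
    obtain ⟨c1, c2⟩ := hCNT B (er M s t) s t hst S.toAmal T hA hT w l hl
    have c3 := (hSUB _ T (S.U h)).2.2.2.2.1 l
    rw [hSm] at hb1
    have e1 : syllables s w = (w.map Prod.fst).count s := rfl
    have e2 : syllables t w = (w.map Prod.fst).count t := rfl
    rw [e1, e2] at hw
    rcases le_total ((w.map Prod.fst).count s) ((w.map Prod.fst).count t) with hle | hle
    · rw [min_eq_left hle] at hw
      omega
    · rw [min_eq_right hle] at hw
      omega
  · intro h1
    rw [← erq_val M s t, h1, map_one]

end Pool.Agent.L0h29.AL
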